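import Mathlib

set_option autoImplicit false
set_option linter.all false

/-! The scheme `Proj` of a graded domain: sections of the structure sheaf as elements of the
fraction field. -/

open AlgebraicGeometry CategoryTheory HomogeneousLocalization

namespace Pool.Agent.R866.PJ

noncomputable section

variable {k : Type} [Field k] {A : Type} [CommRing A] [Algebra k A]
  (𝒜 : ℕ → Submodule k A) [GradedAlgebra 𝒜]

instance primeAt (x : Proj 𝒜) : (HomogeneousIdeal.toIdeal x.asHomogeneousIdeal).IsPrime := x.isPrime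

/-- The homogeneous localization at the point `x`. -/
abbrev LocAt (x : Proj 𝒜) : Type := AtPrime 𝒜 (HomogeneousIdeal.toIdeal x.asHomogeneousIdeal)

/-- The fraction field. -/
abbrev Fr (A : Type) [CommRing A] : Type := FractionRing A

/-- The embedding of the domain in its fraction field. -/
abbrev emb (A : Type) [CommRing A] : A →+* Fr A := algebraMap A (FractionRing A)

theorem emb_inj [IsDomain A] {a b : A} : emb A a = emb A b ↔ a = b :=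
  (IsFractionRing.injective A (FractionRing A)).eq_iff

theorem emb_ne [IsDomain A] {a : A} (h : a ≠ 0) : emb A a ≠ 0 := by
  intro h0
  exact h (emb_inj.1 (h0.trans (map_zero _).symm))

variable [IsDomain A]

/-- The value in the fraction field of an element of the homogeneous localization. -/
def kap (x : Proj 𝒜) : LocAt 𝒜 x →+* Fr A :=
  (IsLocalization.lift (M := x.asHomogeneousIdeal.toIdeal.primeCompl)
    (S := Localization.AtPrime x.asHomogeneousIdeal.toIdeal) (g := emb A) (by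
      intro y
      refine (emb_ne ?_).isUnit
      intro h
      exact y.2 (h ▸ zero_mem _))).comp
    (algebraMap (LocAt 𝒜 x) (Localization.AtPrime x.asHomogeneousIdeal.toIdeal))

theorem kap_mk (x : Proj 𝒜) (c : NumDenSameDeg 𝒜 x.asHomogeneousIdeal.toIdeal.primeCompl) :
    kap 𝒜 x (HomogeneousLocalization.mk c) = emb A (c.num : A) / emb A (c.den : A) := by
  have h0 : algebraMap (LocAt 𝒜 x) (Localization.AtPrime x.asHomogeneousIdeal.toIdeal)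
      (HomogeneousLocalization.mk c) = Localization.mk (c.num : A) ⟨(c.den : A), c.den_mem⟩ := rfl
  have hd : (c.den : A) ≠ 0 := by
    intro h
    exact c.den_mem (h ▸ zero_mem _)
  rw [kap, RingHom.comp_apply, h0, Localization.mk_eq_mk', IsLocalization.lift_mk'_spec]
  rw [mul_div_cancel₀ _ (emb_ne hd)]

theorem kap_inj (x : Proj 𝒜) : Function.Injective (kap 𝒜 x) := by
  rw [injective_iff_map_eq_zero]
  intro z hz
  obtain ⟨c, rfl⟩ := HomogeneousLocalization.mk_surjective z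
  rw [kap_mk] at hz
  have hd : (c.den : A) ≠ 0 := by
    intro h
    exact c.den_mem (h ▸ zero_mem _)
  rw [div_eq_zero_iff, or_iff_left (emb_ne hd)] at hz
  have hn : (c.num : A) = 0 := emb_inj.1 (hz.trans (map_zero _).symm)
  apply HomogeneousLocalization.val_injective
  rw [HomogeneousLocalization.val_mk, hn, HomogeneousLocalization.val_zero, Localization.mk_zero]

/-- `f` is a fraction of homogeneous elements of the same degree, the denominator of which does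
not vanish at `x`. -/
def RegAt (x : Proj 𝒜) (f : Fr A) : Prop :=
  ∃ (n : ℕ) (a b : A), a ∈ 𝒜 n ∧ b ∈ 𝒜 n ∧ b ∉ x.asHomogeneousIdeal ∧ f = emb A a / emb A b

theorem ne_zero_of_notMem {x : Proj 𝒜} {b : A} (hb : b ∉ x.asHomogeneousIdeal) : b ≠ 0 := by
  intro h
  exact hb (h ▸ zero_mem _)

theorem regAt_iff (x : Proj 𝒜) (f : Fr A) : RegAt 𝒜 x f ↔ ∃ z, kap 𝒜 x z = f := by
  constructor
  · rintro ⟨n, a, b, ha, hb, hbx, rfl⟩
    exact ⟨HomogeneousLocalization.mk ⟨n, ⟨a, ha⟩, ⟨b, hb⟩, hbx⟩, kap_mk _ _ _⟩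
  · rintro ⟨z, rfl⟩
    obtain ⟨c, rfl⟩ := HomogeneousLocalization.mk_surjective z
    exact ⟨c.deg, c.num, c.den, c.num.2, c.den.2, c.den_mem, kap_mk _ _ _⟩

/-- The elements of the fraction field that are regular at all points of `U`. -/
def RegOn (U : (Proj 𝒜).Opens) : Subring (Fr A) where
  carrier := {f | ∀ x ∈ U, RegAt 𝒜 x f}
  zero_mem' := fun x _ => (regAt_iff 𝒜 x _).2 ⟨0, map_zero _⟩
  one_mem' := fun x _ => (regAt_iff 𝒜 x _).2 ⟨1, map_one _⟩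
  add_mem' := fun ha hb x hx => by
    obtain ⟨z, hz⟩ := (regAt_iff 𝒜 x _).1 (ha x hx)
    obtain ⟨w, hw⟩ := (regAt_iff 𝒜 x _).1 (hb x hx)
    exact (regAt_iff 𝒜 x _).2 ⟨z + w, by rw [map_add, hz, hw]⟩
  neg_mem' := fun ha x hx => by
    obtain ⟨z, hz⟩ := (regAt_iff 𝒜 x _).1 (ha x hx)
    exact (regAt_iff 𝒜 x _).2 ⟨-z, by rw [map_neg, hz]⟩
  mul_mem' := fun ha hb x hx => by
    obtain ⟨z, hz⟩ := (regAt_iff 𝒜 x _).1 (ha x hx)
    obtain ⟨w, hw⟩ := (regAt_iff 𝒜 x _).1 (hb x hx)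
    exact (regAt_iff 𝒜 x _).2 ⟨z * w, by rw [map_mul, hz, hw]⟩

theorem mem_RegOn {U : (Proj 𝒜).Opens} {f : Fr A} : f ∈ RegOn 𝒜 U ↔ ∀ x ∈ U, RegAt 𝒜 x f := Iff.rfl

/-- The value of a section at a point, as an element of the fraction field. -/
def ev (U : (Proj 𝒜).Opens) (x : Proj 𝒜) (hx : x ∈ U) : Γ(Proj 𝒜, U) →+* Fr A :=
  (kap 𝒜 x).comp (AlgebraicGeometry.openToLocalization 𝒜 U x hx).hom

theorem ev_apply (U : (Proj 𝒜).Opens) (x : Proj 𝒜) (hx : x ∈ U) (s : Γ(Proj 𝒜, U)) :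
    ev 𝒜 U x hx s = kap 𝒜 x (s.val ⟨x, hx⟩) := rfl

theorem ev_frac (U : (Proj 𝒜).Opens) (x : Proj 𝒜) (hx : x ∈ U) (s : Γ(Proj 𝒜, U)) :
    ∃ (n : ℕ) (a b : A), a ∈ 𝒜 n ∧ b ∈ 𝒜 n ∧ b ∉ x.asHomogeneousIdeal ∧
      ∃ V : (Proj 𝒜).Opens, x ∈ V ∧ V ≤ U ∧ V ≤ Proj.basicOpen 𝒜 b ∧ ∀ (y : Proj 𝒜) (hy : y ∈ U),
        y ∈ V → ev 𝒜 U y hy s = emb A a / emb A b := by
  obtain ⟨V, hxV, i, n, a, b, h, e⟩ := s.2 ⟨x, hx⟩
  refine ⟨n, a, b, a.2, b.2, h ⟨x, hxV⟩, V, hxV, i.le, fun y hy => h ⟨y, hy⟩, ?_⟩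
  intro y hy hyV
  have := e ⟨y, hyV⟩
  rw [ev_apply]
  exact (congrArg (kap 𝒜 y) this).trans (kap_mk 𝒜 y _)

/-- The generic point lies in all nonempty open sets. -/
theorem exists_gen (x : Proj 𝒜) : ∃ g : Proj 𝒜, (g.asHomogeneousIdeal = ⊥) ∧
    ∀ U : (Proj 𝒜).Opens, (∃ y, y ∈ U) → g ∈ U := by
  refine ⟨⟨⊥, Ideal.isPrime_bot, fun h => x.not_irrelevant_le (h.trans bot_le)⟩, rfl, ?_⟩
  rintro U ⟨y, hy⟩
  obtain ⟨V, ⟨f, rfl⟩, hyV, hVU⟩ := (TopologicalSpace.Opens.isBasis_iff_nbhd.1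
    (Proj.isBasis_basicOpen 𝒜)) hy
  apply hVU
  rw [Proj.mem_basicOpen] at hyV
  have h1 : ¬ (f ∈ (⊥ : Ideal A)) := by
    intro h
    apply hyV
    rw [Ideal.mem_bot] at h
    rw [h]
    exact zero_mem _
  exact h1

theorem ev_const (U : (Proj 𝒜).Opens) (x y : Proj 𝒜) (hx : x ∈ U) (hy : y ∈ U)
    (s : Γ(Proj 𝒜, U)) : ev 𝒜 U x hx s = ev 𝒜 U y hy s := by
  obtain ⟨g, -, hg⟩ := exists_gen 𝒜 x
  have hgU : g ∈ U := hg U ⟨x, hx⟩
  have key : ∀ (z : Proj 𝒜) (hz : z ∈ U), ev 𝒜 U z hz s = ev 𝒜 U g hgU s := by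
    intro z hz
    obtain ⟨n, a, b, ha, hb, hbx, V, hxV, hVU, -, hV⟩ := ev_frac 𝒜 U z hz s
    rw [hV z hz hxV, hV g hgU (hg V ⟨z, hxV⟩)]
  rw [key x hx, key y hy]

theorem ev_regAt (U : (Proj 𝒜).Opens) (x y : Proj 𝒜) (hx : x ∈ U) (hy : y ∈ U)
    (s : Γ(Proj 𝒜, U)) : RegAt 𝒜 y (ev 𝒜 U x hx s) := by
  rw [ev_const 𝒜 U x y hx hy s]
  exact (regAt_iff 𝒜 y _).2 ⟨_, rfl⟩

theorem ev_regOn (U : (Proj 𝒜).Opens) (x : Proj 𝒜) (hx : x ∈ U)
    (s : Γ(Proj 𝒜, U)) : ev 𝒜 U x hx s ∈ RegOn 𝒜 U := fun y hy => ev_regAt 𝒜 U x y hx hy s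

theorem sec_ext {U : (Proj 𝒜).Opens} {s t : Γ(Proj 𝒜, U)}
    (h : ∀ (x : Proj 𝒜) (hx : x ∈ U), ev 𝒜 U x hx s = ev 𝒜 U x hx t) : s = t := by
  apply Subtype.ext
  funext x
  exact kap_inj 𝒜 x.1 (h x.1 x.2)

theorem ev_inj (U : (Proj 𝒜).Opens) (x : Proj 𝒜) (hx : x ∈ U) :
    Function.Injective (ev 𝒜 U x hx) := by
  intro s t h
  refine sec_ext 𝒜 fun y hy => ?_
  rw [ev_const 𝒜 U y x hy hx s, ev_const 𝒜 U y x hy hx t, h]

/-- The section with a given value. -/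
def mkSec (U : (Proj 𝒜).Opens) (f : Fr A) (hf : f ∈ RegOn 𝒜 U) : Γ(Proj 𝒜, U) :=
  ⟨fun x => Classical.choose ((regAt_iff 𝒜 x.1 f).1 (hf x.1 x.2)), by
    rintro ⟨x, hx⟩
    obtain ⟨n, a, b, ha, hb, hbx, he⟩ := hf x hx
    refine ⟨U ⊓ Proj.basicOpen 𝒜 b, ⟨hx, hbx⟩, homOfLE inf_le_left, n, ⟨a, ha⟩, ⟨b, hb⟩,
      fun y => y.2.2, fun y => ?_⟩
    apply kap_inj 𝒜 y.1
    refine (Classical.choose_spec ((regAt_iff 𝒜 y.1 f).1 (hf y.1 y.2.1))).trans ?_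
    exact he.trans (kap_mk 𝒜 y.1 ⟨n, ⟨a, ha⟩, ⟨b, hb⟩, y.2.2⟩).symm⟩

theorem ev_mkSec (U : (Proj 𝒜).Opens) (f : Fr A) (hf : f ∈ RegOn 𝒜 U) (x : Proj 𝒜) (hx : x ∈ U) :
    ev 𝒜 U x hx (mkSec 𝒜 U f hf) = f :=
  Classical.choose_spec ((regAt_iff 𝒜 x f).1 (hf x hx))

theorem mkSec_ev (U : (Proj 𝒜).Opens) (x : Proj 𝒜) (hx : x ∈ U) (s : Γ(Proj 𝒜, U)) :
    mkSec 𝒜 U (ev 𝒜 U x hx s) (ev_regOn 𝒜 U x hx s) = s :=
  ev_inj 𝒜 U x hx (ev_mkSec 𝒜 U _ _ x hx)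

theorem ev_res (U V : (Proj 𝒜).Opens) (h : V ≤ U) (x : Proj 𝒜) (hx : x ∈ V) (s : Γ(Proj 𝒜, U)) :
    ev 𝒜 V x hx ((Proj 𝒜).presheaf.map (homOfLE h).op s) = ev 𝒜 U x (h hx) s := rfl

theorem mem_basicOpen_iff (U : (Proj 𝒜).Opens) (s : Γ(Proj 𝒜, U)) (x : Proj 𝒜) (hx : x ∈ U) :
    x ∈ (Proj 𝒜).basicOpen s ↔ ∃ (n : ℕ) (a b : A), a ∈ 𝒜 n ∧ b ∈ 𝒜 n ∧
      a ∉ x.asHomogeneousIdeal ∧ b ∉ x.asHomogeneousIdeal ∧
      ev 𝒜 U x hx s = emb A a / emb A b := by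
  rw [Scheme.mem_basicOpen _ _ _ hx]
  constructor
  · intro h
    obtain ⟨n, a, b, ha, hb, hbx, V, hxV, hVU, -, hV⟩ := ev_frac 𝒜 U x hx s
    have he := hV x hx hxV
    refine ⟨n, a, b, ha, hb, ?_, hbx, he⟩
    intro hax
    have h1 : IsUnit (s.val ⟨x, hx⟩) := by
      have := h.map (AlgebraicGeometry.stalkToFiberRingHom 𝒜 x).hom
      have h2 := AlgebraicGeometry.stalkToFiberRingHom_germ 𝒜 U x hx s
      exact (congrArg IsUnit h2).mp this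
    obtain ⟨c, hc⟩ := HomogeneousLocalization.mk_surjective (s.val ⟨x, hx⟩)
    obtain ⟨w, hw⟩ := h1
    have h3 : kap 𝒜 x (w⁻¹ : (LocAt 𝒜 x)ˣ) * (emb A a / emb A b) = 1 := by
      rw [← he, ev_apply]
      have : s.val ⟨x, hx⟩ = (w : LocAt 𝒜 x) := hw.symm
      rw [this, ← map_mul, Units.inv_mul, map_one]
    obtain ⟨d, hd⟩ := HomogeneousLocalization.mk_surjective ((w⁻¹ : (LocAt 𝒜 x)ˣ) : LocAt 𝒜 x)
    rw [← hd, kap_mk] at h3
    have hb0 : emb A b ≠ 0 := emb_ne (ne_zero_of_notMem 𝒜 hbx)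
    have hd0 : emb A (d.den : A) ≠ 0 := emb_ne (ne_zero_of_notMem 𝒜 (x := x) d.den_mem)
    rw [div_mul_div_comm, div_eq_one_iff_eq (mul_ne_zero hd0 hb0), ← map_mul, ← map_mul,
      emb_inj] at h3
    have h4 : (d.den : A) * b ∈ x.asHomogeneousIdeal.toIdeal := by
      rw [← h3]
      exact Ideal.mul_mem_left _ _ hax
    rcases x.isPrime.mem_or_mem h4 with h5 | h5
    · exact d.den_mem h5
    · exact hbx h5
  · rintro ⟨n, a, b, ha, hb, hax, hbx, he⟩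
    have h1 : IsUnit (s.val ⟨x, hx⟩) := by
      rw [isUnit_iff_exists_inv]
      refine ⟨HomogeneousLocalization.mk ⟨n, ⟨b, hb⟩, ⟨a, ha⟩, hax⟩, ?_⟩
      apply kap_inj 𝒜 x
      have h2 : kap 𝒜 x (s.val ⟨x, hx⟩) = emb A a / emb A b := he
      have h3 := kap_mk 𝒜 x ⟨n, ⟨b, hb⟩, ⟨a, ha⟩, hax⟩
      refine (map_mul (kap 𝒜 x) _ _).trans ?_
      rw [h2, h3, map_one]
      have ha0 : emb A a ≠ 0 := emb_ne (ne_zero_of_notMem 𝒜 hax)
      have hb0 : emb A b ≠ 0 := emb_ne (ne_zero_of_notMem 𝒜 hbx)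
      field_simp
    have h2 := AlgebraicGeometry.stalkToFiberRingHom_germ 𝒜 U x hx s
    have h3 : IsUnit (Proj.stalkIso' 𝒜 x ((Proj 𝒜).presheaf.germ U x hx s)) :=
      (congrArg IsUnit h2).mpr h1
    exact (MulEquiv.isUnit_map (Proj.stalkIso' 𝒜 x)).1 h3

end

end Pool.Agent.R866.PJ
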