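import Pool.Agent.R866.PJ.Inv

set_option autoImplicit false
set_option linter.all false

/-! Open sets with irreducible complement in `Proj` of a graded unique factorization domain. -/

open AlgebraicGeometry CategoryTheory HomogeneousLocalization

namespace Pool.Agent.R866.PJ

open Pool.Agent.Helper922.VS

noncomputable section

variable {k : Type} [Field k] {A : Type} [CommRing A] [Algebra k A]
  (𝒜 : ℕ → Submodule k A) [GradedAlgebra 𝒜] [IsDomain A]

open Classical in
/-- A divisor of a nonzero homogeneous element is homogeneous. -/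
theorem dvd_homog {p H : A} {m : ℕ} (hH : H ∈ 𝒜 m) (hH0 : H ≠ 0) (hp : p ∣ H) :
    ∃ d, p ∈ 𝒜 d := by
  obtain ⟨q, rfl⟩ := hp
  have hp0 : p ≠ 0 := left_ne_zero_of_mul hH0
  have hq0 : q ≠ 0 := right_ne_zero_of_mul hH0
  set P := DirectSum.decompose 𝒜 p with hP
  set Q := DirectSum.decompose 𝒜 q with hQ
  have hPs : P.support.Nonempty := by
    rw [Finset.nonempty_iff_ne_empty]
    intro h
    apply hp0
    have := DirectSum.sum_support_decompose 𝒜 p
    rw [← hP, h, Finset.sum_empty] at this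
    exact this.symm
  have hQs : Q.support.Nonempty := by
    rw [Finset.nonempty_iff_ne_empty]
    intro h
    apply hq0
    have := DirectSum.sum_support_decompose 𝒜 q
    rw [← hQ, h, Finset.sum_empty] at this
    exact this.symm
  have ne_of_mem : ∀ (r : DirectSum ℕ fun i => 𝒜 i) (i : ℕ), i ∈ r.support → (r i : A) ≠ 0 := by
    intro r i hi h
    rw [DFinsupp.mem_support_iff] at hi
    exact hi (Subtype.ext h)
  have hmul : ∀ n, (DirectSum.decompose 𝒜 (p * q) n : A) =
      ∑ ij ∈ P.support ×ˢ Q.support with ij.1 + ij.2 = n, (P ij.1 * Q ij.2 : A) := by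
    intro n
    rw [DirectSum.decompose_mul]
    exact DirectSum.coe_mul_apply 𝒜 P Q n
  have hzero : ∀ n, n ≠ m → (DirectSum.decompose 𝒜 (p * q) n : A) = 0 := by
    intro n hn
    exact DirectSum.decompose_of_mem_ne 𝒜 hH (Ne.symm hn)
  have hmin : P.support.min' hPs + Q.support.min' hQs = m := by
    by_contra hne
    have h1 := hmul (P.support.min' hPs + Q.support.min' hQs)
    rw [hzero _ hne, Finset.sum_eq_single_of_mem (P.support.min' hPs, Q.support.min' hQs)] at h1
    · rcases mul_eq_zero.1 h1.symm with h2 | h2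
      · exact ne_of_mem P _ (Finset.min'_mem _ hPs) h2
      · exact ne_of_mem Q _ (Finset.min'_mem _ hQs) h2
    · simp only [Finset.mem_filter, Finset.mem_product]
      exact ⟨⟨Finset.min'_mem _ _, Finset.min'_mem _ _⟩, trivial⟩
    · rintro ⟨i, j⟩ hij hne2
      simp only [Finset.mem_filter, Finset.mem_product] at hij
      have h3 := Finset.min'_le _ _ hij.1.1
      have h4 := Finset.min'_le _ _ hij.1.2
      exfalso
      apply hne2
      ext <;> simp <;> omega
  have hmax : P.support.max' hPs + Q.support.max' hQs = m := by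
    by_contra hne
    have h1 := hmul (P.support.max' hPs + Q.support.max' hQs)
    rw [hzero _ hne, Finset.sum_eq_single_of_mem (P.support.max' hPs, Q.support.max' hQs)] at h1
    · rcases mul_eq_zero.1 h1.symm with h2 | h2
      · exact ne_of_mem P _ (Finset.max'_mem _ hPs) h2
      · exact ne_of_mem Q _ (Finset.max'_mem _ hQs) h2
    · simp only [Finset.mem_filter, Finset.mem_product]
      exact ⟨⟨Finset.max'_mem _ _, Finset.max'_mem _ _⟩, trivial⟩
    · rintro ⟨i, j⟩ hij hne2
      simp only [Finset.mem_filter, Finset.mem_product] at hij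
      have h3 := Finset.le_max' _ _ hij.1.1
      have h4 := Finset.le_max' _ _ hij.1.2
      exfalso
      apply hne2
      ext <;> simp <;> omega
  have hle1 : P.support.min' hPs ≤ P.support.max' hPs := Finset.min'_le_max' _ _
  have hle2 : Q.support.min' hQs ≤ Q.support.max' hQs := Finset.min'_le_max' _ _
  have heq : P.support.min' hPs = P.support.max' hPs := by omega
  refine ⟨P.support.max' hPs, ?_⟩
  have h5 : p = (P (P.support.max' hPs) : A) := by
    have h6 := DirectSum.sum_support_decompose 𝒜 p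
    rw [← hP] at h6
    rw [Finset.sum_eq_single_of_mem (P.support.max' hPs) (Finset.max'_mem _ _)] at h6
    · exact h6.symm
    · intro i hi hne
      have h7 := Finset.min'_le _ _ hi
      have h8 := Finset.le_max' _ _ hi
      exfalso
      apply hne
      omega
  rw [h5]
  exact SetLike.coe_mem _

variable [UniqueFactorizationMonoid A] (h0 : ∀ a ∈ 𝒜 0, ∃ c : k, a = algebraMap k A c)
  (hlin : ∀ F : A, Prime F → ∃ y ∈ 𝒜 1, ¬ F ∣ y)

include h0 hlin

/-- The point of `Proj` defined by a homogeneous prime element. -/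
theorem exists_point {d : ℕ} {F : A} (hF : F ∈ 𝒜 d) (hFp : Prime F) :
    ∃ η : Proj 𝒜, ∀ a : A, a ∈ η.asHomogeneousIdeal ↔ F ∣ a := by
  obtain ⟨y, hy, hyF⟩ := hlin F hFp
  have hh : (Ideal.span {F}).IsHomogeneous 𝒜 := by
    apply Ideal.homogeneous_span
    intro x hx
    rw [Set.mem_singleton_iff] at hx
    rw [hx]
    exact ⟨d, hF⟩
  refine ⟨⟨⟨Ideal.span {F}, hh⟩, (Ideal.span_singleton_prime hFp.ne_zero).2 hFp, ?_⟩, ?_⟩
  · intro hle
    apply hyF
    rw [← Ideal.mem_span_singleton]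
    apply hle
    rw [HomogeneousIdeal.mem_irrelevant_iff, GradedRing.proj_apply]
    exact DirectSum.decompose_of_mem_ne 𝒜 hy one_ne_zero
  · intro a
    exact Ideal.mem_span_singleton

theorem classify (U : (Proj 𝒜).Opens) (η : Proj 𝒜) (hη : η ∉ U)
    (hsp : ∀ x, x ∉ U → ∀ V : (Proj 𝒜).Opens, x ∈ V → η ∈ V)
    (hf : ∃ f : Reg (Proj 𝒜) U, ∀ c : k, f ≠ baseHom (str 𝒜) U c) :
    ∃ (d : ℕ) (F : A), 0 < d ∧ F ∈ 𝒜 d ∧ Prime F ∧ U = Proj.basicOpen 𝒜 F ∧
      ∀ a : A, a ∈ η.asHomogeneousIdeal ↔ F ∣ a := by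
  classical
  obtain ⟨f, hf⟩ := hf
  have hUne : ∃ x, x ∈ U := by
    by_contra hemp
    push Not at hemp
    exact hf 0 (sec_ext 𝒜 fun x hx => absurd hx (hemp x))
  obtain ⟨g0, hg0, hgen⟩ := exists_gen 𝒜 η
  have hg0U := hgen U hUne
  have hsp' : ∀ x, x ∉ U → ∀ a, a ∈ η.asHomogeneousIdeal → a ∈ x.asHomogeneousIdeal := by
    intro x hx a ha
    by_contra hax
    exact hsp x hx (Proj.basicOpen 𝒜 a) hax ha
  have hne : ∃ a ∈ η.asHomogeneousIdeal, a ≠ 0 := by
    by_contra hcon
    push Not at hcon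
    apply hη
    have : η = g0 := by
      apply ProjectiveSpectrum.ext
      rw [hg0]
      ext a
      constructor
      · intro ha
        rw [hcon a ha]
        exact zero_mem _
      · intro ha
        have ha' : a ∈ (⊥ : Ideal A) := ha
        rw [Ideal.mem_bot] at ha'
        rw [ha']
        exact zero_mem _
    rw [this]
    exact hg0U
  obtain ⟨a, ha, ha0⟩ := hne
  obtain ⟨m, hm⟩ : ∃ m, (DirectSum.decompose 𝒜 a m : A) ≠ 0 := by
    by_contra hcon
    push Not at hcon
    apply ha0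
    rw [← DirectSum.sum_support_decompose 𝒜 a]
    exact Finset.sum_eq_zero fun i _ => hcon i
  have hH : (DirectSum.decompose 𝒜 a m : A) ∈ η.asHomogeneousIdeal :=
    η.asHomogeneousIdeal.isHomogeneous m ha
  obtain ⟨F, hFp, hFη, hFH⟩ : ∃ F : A, Prime F ∧ F ∈ η.asHomogeneousIdeal ∧
      F ∣ (DirectSum.decompose 𝒜 a m : A) := by
    obtain ⟨u, hu⟩ := UniqueFactorizationMonoid.factors_prod hm
    have h1 : (UniqueFactorizationMonoid.factors (DirectSum.decompose 𝒜 a m : A)).prod ∈
        η.asHomogeneousIdeal.toIdeal := by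
      have h2 : (DirectSum.decompose 𝒜 a m : A) ∈ η.asHomogeneousIdeal.toIdeal := hH
      rwa [← hu, Ideal.mul_unit_mem_iff_mem _ u.isUnit] at h2
    obtain ⟨F, hF1, hF2⟩ := (η.isPrime.multiset_prod_mem_iff_exists_mem _).1 h1
    refine ⟨F, UniqueFactorizationMonoid.prime_of_factor F hF1, hF2, ?_⟩
    exact UniqueFactorizationMonoid.dvd_of_mem_factors hF1
  obtain ⟨d, hF⟩ := dvd_homog 𝒜 (SetLike.coe_mem _) hm hFH
  have hd : 0 < d := by
    rcases Nat.eq_zero_or_pos d with hd | hd
    · exfalso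
      subst hd
      obtain ⟨c, rfl⟩ := h0 F hF
      apply hFp.not_unit
      have hc : c ≠ 0 := by
        rintro rfl
        exact hFp.ne_zero (map_zero _)
      exact (isUnit_iff_ne_zero.2 hc).map (algebraMap k A)
    · exact hd
  obtain ⟨ηF, hηF⟩ := exists_point 𝒜 h0 hlin hF hFp
  have hDU : Proj.basicOpen 𝒜 F ≤ U := by
    intro x hx
    by_contra hxU
    exact hx (hsp' x hxU F hFη)
  have hηFU : ηF ∉ U := by
    intro hU
    obtain ⟨n, a', ha', hev⟩ := sec_away 𝒜 hd hF (rs hDU f)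
    have hg0F : g0 ∈ Proj.basicOpen 𝒜 F := by
      rw [Proj.mem_basicOpen, hg0]
      intro h
      have h' : F ∈ (⊥ : Ideal A) := h
      exact hFp.ne_zero (Ideal.mem_bot.1 h')
    have h1 : ev 𝒜 U ηF hU f = emb A a' / emb A (F ^ n) := by
      rw [ev_const 𝒜 U ηF g0 hU hg0U f]
      exact hev g0 hg0F
    have h2 := ev_regAt 𝒜 U ηF ηF hU hU f
    rw [h1] at h2
    obtain ⟨c, hc, hc'⟩ := regAt_prime 𝒜 hd hF hFp ηF hηF ha' h2
    obtain ⟨c, rfl⟩ := h0 c hc
    apply hf c
    apply ev_inj 𝒜 U ηF hU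
    rw [h1, hc']
    exact (ev_base 𝒜 U ηF hU c).symm
  have hηid : ∀ a : A, a ∈ η.asHomogeneousIdeal ↔ F ∣ a := by
    intro b
    constructor
    · intro hb
      rw [← hηF]
      exact hsp' ηF hηFU b hb
    · intro hb
      exact Ideal.mem_of_dvd _ hb hFη
  refine ⟨d, F, hd, hF, hFp, le_antisymm ?_ hDU, hηid⟩
  intro x hxU hxF
  apply hη
  obtain ⟨V, ⟨g, rfl⟩, hxg, hgU⟩ := (TopologicalSpace.Opens.isBasis_iff_nbhd.1
    (Proj.isBasis_basicOpen 𝒜)) hxU
  apply hgU
  intro hg
  apply hxg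
  exact Ideal.mem_of_dvd x.asHomogeneousIdeal.toIdeal ((hηid g).1 hg) hxF

end

end Pool.Agent.R866.PJ
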