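import Pool.Agent.R866.PJ.Base

set_option autoImplicit false
set_option linter.all false

/-! Homogeneous derivations of degree zero act on the sections of the structure sheaf. -/

open AlgebraicGeometry CategoryTheory HomogeneousLocalization

namespace Pool.Agent.R866.PJ

noncomputable section

variable {k : Type} [Field k] {A : Type} [CommRing A] [Algebra k A]
  (𝒜 : ℕ → Submodule k A) [GradedAlgebra 𝒜] [IsDomain A]

/-- The ring homomorphism `a ↦ a + E(a) ε`. -/
def dmap (E : Derivation k A A) : A →+* TrivSqZeroExt (Fr A) (Fr A) where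
  toFun a := TrivSqZeroExt.inl (emb A a) + TrivSqZeroExt.inr (emb A (E a))
  map_one' := by simp
  map_zero' := by simp
  map_add' a b := by
    apply TrivSqZeroExt.ext
    · simp only [TrivSqZeroExt.fst_add, TrivSqZeroExt.fst_inl, TrivSqZeroExt.fst_inr, map_add]
      ring
    · simp only [TrivSqZeroExt.snd_add, TrivSqZeroExt.snd_inl, TrivSqZeroExt.snd_inr, map_add]
      ring
  map_mul' a b := by
    apply TrivSqZeroExt.ext
    · simp only [TrivSqZeroExt.fst_add, TrivSqZeroExt.fst_inl, TrivSqZeroExt.fst_inr, map_mul,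
        TrivSqZeroExt.fst_mul]
      ring
    · simp only [TrivSqZeroExt.snd_add, TrivSqZeroExt.snd_inl, TrivSqZeroExt.snd_inr, map_mul,
        TrivSqZeroExt.snd_mul, Derivation.leibniz, map_add, smul_eq_mul, TrivSqZeroExt.fst_add,
        TrivSqZeroExt.fst_inl, TrivSqZeroExt.fst_inr, MulOpposite.smul_eq_mul_unop,
        MulOpposite.unop_op]
      ring

/-- Extension to the fraction field. -/
def dK (E : Derivation k A A) : Fr A →+* TrivSqZeroExt (Fr A) (Fr A) :=
  IsLocalization.lift (M := nonZeroDivisors A) (S := Fr A) (g := dmap E) (by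
    intro y
    rw [TrivSqZeroExt.isUnit_iff_isUnit_fst]
    have h : (dmap E (y : A)).fst = emb A y := by simp [dmap]
    rw [h]
    exact (emb_ne (nonZeroDivisors.ne_zero y.2)).isUnit)

theorem dK_emb (E : Derivation k A A) (a : A) : dK E (emb A a) =
    TrivSqZeroExt.inl (emb A a) + TrivSqZeroExt.inr (emb A (E a)) :=
  IsLocalization.lift_eq _ a

theorem dK_fst (E : Derivation k A A) (f : Fr A) : (dK E f).fst = f := by
  have h : (TrivSqZeroExt.fstHom (Fr A) (Fr A) (Fr A)).toRingHom.comp (dK E) = RingHom.id _ := by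
    apply IsLocalization.ringHom_ext (nonZeroDivisors A)
    apply RingHom.ext
    intro a
    simp only [RingHom.comp_apply]
    have := dK_emb E a
    change (dK E (emb A a)).fst = emb A a
    rw [this]
    simp
  exact congrArg (fun φ : Fr A →+* Fr A => φ f) h

/-- The derivation of the fraction field. -/
def DF (E : Derivation k A A) (f : Fr A) : Fr A := (dK E f).snd

theorem DF_emb (E : Derivation k A A) (a : A) : DF E (emb A a) = emb A (E a) := by
  rw [DF, dK_emb]
  simp only [TrivSqZeroExt.snd_add, TrivSqZeroExt.snd_inl, TrivSqZeroExt.snd_inr, zero_add]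

theorem DF_add (E : Derivation k A A) (f g : Fr A) : DF E (f + g) = DF E f + DF E g := by
  simp [DF]

theorem DF_mul (E : Derivation k A A) (f g : Fr A) : DF E (f * g) = f * DF E g + g * DF E f := by
  unfold DF
  rw [map_mul, TrivSqZeroExt.snd_mul, dK_fst, dK_fst]
  simp only [smul_eq_mul, MulOpposite.smul_eq_mul_unop, MulOpposite.unop_op]
  ring

theorem DF_div (E : Derivation k A A) (a b : A) (hb : b ≠ 0) :
    DF E (emb A a / emb A b) = emb A (E a * b - a * E b) / emb A (b * b) := by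
  have hb' := emb_ne hb
  have h : emb A a = (emb A a / emb A b) * emb A b := (div_mul_cancel₀ _ hb').symm
  have h1 := congrArg (DF E) h
  rw [DF_mul, DF_emb, DF_emb] at h1
  rw [eq_div_iff (emb_ne (mul_ne_zero hb hb)), map_mul, map_sub, map_mul, map_mul]
  field_simp at h1 ⊢
  rw [h1]
  ring

theorem DF_smul_hom (E E' : Derivation k A A) (c d : A) (h : c • E = d • E') (f : Fr A) :
    emb A c * DF E f = emb A d * DF E' f := by
  obtain ⟨⟨a, b⟩, hf⟩ := IsLocalization.surj (M := nonZeroDivisors A) f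
  simp only at hf
  have hb0 : (b : A) ≠ 0 := nonZeroDivisors.ne_zero b.2
  have hb : emb A (b : A) ≠ 0 := emb_ne hb0
  have hf' : f = emb A a / emb A (b : A) := by
    rw [eq_div_iff hb]; exact hf
  have h1 : ∀ x : A, c * E x = d * E' x := fun x => congrArg (fun e : Derivation k A A => e x) h
  rw [hf', DF_div _ _ _ hb0, DF_div _ _ _ hb0, mul_div_assoc', mul_div_assoc', ← map_mul, ← map_mul]
  congr 2
  rw [mul_sub, mul_sub]
  have h2 := h1 a
  have h3 := h1 b
  calc c * (E a * b) - c * (a * E b) = (c * E a) * b - a * (c * E b) := by ring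
    _ = (d * E' a) * b - a * (d * E' b) := by rw [h2, h3]
    _ = _ := by ring

variable (E : Derivation k A A) (hE : ∀ n, ∀ a ∈ 𝒜 n, E a ∈ 𝒜 n)

include hE in
theorem DF_regAt {x : Proj 𝒜} {f : Fr A} (h : RegAt 𝒜 x f) : RegAt 𝒜 x (DF E f) := by
  obtain ⟨n, a, b, ha, hb, hbx, rfl⟩ := h
  refine ⟨n + n, E a * b - a * E b, b * b, ?_, ?_, ?_, DF_div E a b (ne_zero_of_notMem 𝒜 hbx)⟩
  · exact sub_mem (SetLike.mul_mem_graded (hE n a ha) hb) (SetLike.mul_mem_graded ha (hE n b hb))
  · exact SetLike.mul_mem_graded hb hb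
  · intro h
    rcases x.isPrime.mem_or_mem h with h | h <;> exact hbx h

include hE in
theorem DF_regOn {U : (Proj 𝒜).Opens} {f : Fr A} (h : f ∈ RegOn 𝒜 U) : DF E f ∈ RegOn 𝒜 U :=
  fun x hx => DF_regAt 𝒜 E hE (h x hx)

open Classical in
/-- The operator on sections. -/
def DS (U : (Proj 𝒜).Opens) (s : Γ(Proj 𝒜, U)) : Γ(Proj 𝒜, U) :=
  if h : ∃ x, x ∈ U then
    mkSec 𝒜 U (DF E (ev 𝒜 U h.choose h.choose_spec s))
      (DF_regOn 𝒜 E hE (ev_regOn 𝒜 U h.choose h.choose_spec s))
  else 0

theorem ev_DS (U : (Proj 𝒜).Opens) (x : Proj 𝒜) (hx : x ∈ U) (s : Γ(Proj 𝒜, U)) :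
    ev 𝒜 U x hx (DS 𝒜 E hE U s) = DF E (ev 𝒜 U x hx s) := by
  have h : ∃ x, x ∈ U := ⟨x, hx⟩
  rw [DS, dif_pos h, ev_mkSec, ev_const 𝒜 U h.choose x h.choose_spec hx]

end

end Pool.Agent.R866.PJ
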