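import Pool.Agent.R866.PJ.Str

set_option autoImplicit false
set_option linter.all false

/-! Functions with at most a simple pole along an irreducible divisor. -/

open AlgebraicGeometry CategoryTheory HomogeneousLocalization

namespace Pool.Agent.R866.PJ

open Pool.Agent.Helper922.VS

noncomputable section

/-- The function `f` on `U` has at most a simple pole along the closure of `η`. -/
def SP {X : Scheme.{0}} (U : X.Opens) (η : X) (f : Reg X U) : Prop :=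
  ∀ (V : X.Opens) (t : Reg X V), η ∈ V → η ∉ nz t → ∃ (W : X.Opens) (h : W ≤ V) (g : Reg X W),
    η ∈ W ∧ rs (inf_le_left : W ⊓ U ≤ W) g =
      rs (inf_le_left.trans h) t * rs (inf_le_right : W ⊓ U ≤ U) f

/-- There is an irreducible divisor with affine-like complement and a five-dimensional space of
functions with at most a simple pole. -/
def Has5 {k : Type} [Field k] {X : Scheme.{0}} (p : X ⟶ Spec (CommRingCat.of k)) : Prop :=
  ∃ (U : X.Opens) (η : X), η ∉ U ∧ (∀ x, x ∉ U → ∀ V : X.Opens, x ∈ V → η ∈ V) ∧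
    (∃ f : Reg X U, ∀ c : k, f ≠ baseHom p U c) ∧
    ∃ b : Fin 5 → Reg X U, (∀ i, SP U η (b i)) ∧
      (∀ c : Fin 5 → k, ∑ i, baseHom p U (c i) * b i = 0 → ∀ i, c i = 0) ∧
      ∀ f : Reg X U, SP U η f → ∃ c : Fin 5 → k, f = ∑ i, baseHom p U (c i) * b i

variable {k : Type} [Field k] {A : Type} [CommRing A] [Algebra k A]
  (𝒜 : ℕ → Submodule k A) [GradedAlgebra 𝒜] [IsDomain A]

/-- A quotient of homogeneous elements is homogeneous. -/
theorem quot_homog {F G : A} {m e : ℕ} (hF : F ∈ 𝒜 m) (hF0 : F ≠ 0) (h : F * G ∈ 𝒜 (m + e)) :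
    G ∈ 𝒜 e := by
  classical
  have key : ∀ j, j ≠ e → (DirectSum.decompose 𝒜 G j : A) = 0 := by
    intro j hj
    have h1 : (DirectSum.decompose 𝒜 (F * G) (m + j) : A) = F * DirectSum.decompose 𝒜 G j :=
      DirectSum.coe_decompose_mul_add_of_left_mem 𝒜 hF
    have h2 : (DirectSum.decompose 𝒜 (F * G) (m + j) : A) = 0 :=
      DirectSum.decompose_of_mem_ne 𝒜 h (by omega)
    rw [h2] at h1
    rcases mul_eq_zero.1 h1.symm with h3 | h3
    · exact absurd h3 hF0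
    · exact h3
  have h4 : G = DirectSum.decompose 𝒜 G e := by
    conv_lhs => rw [← DirectSum.sum_support_decompose 𝒜 G]
    by_cases he : e ∈ (DirectSum.decompose 𝒜 G).support
    · rw [Finset.sum_eq_single_of_mem e he]
      intro j _ hj
      exact key j hj
    · rw [Finset.sum_eq_zero]
      · rw [DFinsupp.notMem_support_iff] at he
        rw [he]
        rfl
      · intro j hj
        exact key j (fun h => he (h ▸ hj))
  rw [h4]
  exact SetLike.coe_mem _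

/-- Functions on `D₊(F)` are of the form `a / F^n`. -/
theorem sec_away {d : ℕ} (hd : 0 < d) {F : A} (hF : F ∈ 𝒜 d) (f : Γ(Proj 𝒜, Proj.basicOpen 𝒜 F)) :
    ∃ (n : ℕ) (a : A), a ∈ 𝒜 (n * d) ∧ ∀ (x : Proj 𝒜) (hx : x ∈ Proj.basicOpen 𝒜 F),
      ev 𝒜 _ x hx f = emb A a / emb A (F ^ n) := by
  have hb := ConcreteCategory.bijective_of_isIso (Proj.basicOpenIsoAway 𝒜 F hF hd).hom
  obtain ⟨z, hz⟩ := hb.2 f
  obtain ⟨n, a, ha, rfl⟩ := Away.mk_surjective 𝒜 hF z
  refine ⟨n, a, by simpa using ha, fun x hx => ?_⟩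
  rw [← hz]
  exact ev_away 𝒜 F _ x hx

section main

variable {d : ℕ} (hd : 0 < d) {F : A} (hF : F ∈ 𝒜 d) (hFp : Prime F) {y : A} (hy : y ∈ 𝒜 1)
  (η : Proj 𝒜) (hη : ∀ a : A, a ∈ η.asHomogeneousIdeal ↔ F ∣ a)

include hd hF hFp in
theorem regAt_prime (hη : ∀ a : A, a ∈ η.asHomogeneousIdeal ↔ F ∣ a) {n : ℕ} {a : A}
    (ha : a ∈ 𝒜 (n * d)) (h : RegAt 𝒜 η (emb A a / emb A (F ^ n))) :
    ∃ c ∈ 𝒜 0, emb A a / emb A (F ^ n) = emb A c := by
  obtain ⟨m, c, e, hc, he, hee, h1⟩ := h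
  have hFn : F ^ n ≠ 0 := pow_ne_zero _ hFp.ne_zero
  have he0 : e ≠ 0 := ne_zero_of_notMem 𝒜 hee
  rw [div_eq_div_iff (emb_ne hFn) (emb_ne he0), ← map_mul, ← map_mul, emb_inj] at h1
  rw [hη] at hee
  have h2 : F ^ n ∣ a := by
    apply hFp.pow_dvd_of_dvd_mul_right n hee
    rw [h1]
    exact dvd_mul_left _ _
  obtain ⟨a', rfl⟩ := h2
  refine ⟨a', ?_, ?_⟩
  · exact quot_homog 𝒜 (SetLike.pow_mem_graded n hF) hFn (by simpa using ha)
  · rw [map_mul, mul_div_cancel_left₀ _ (emb_ne hFn)]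

include hd hF hFp hy hη in
theorem SP_iff (hyF : ¬ F ∣ y) (f : Reg (Proj 𝒜) (Proj.basicOpen 𝒜 F)) :
    SP (Proj.basicOpen 𝒜 F) η f ↔ ∃ G ∈ 𝒜 d, ∀ (x : Proj 𝒜) (hx : x ∈ Proj.basicOpen 𝒜 F),
      ev 𝒜 _ x hx f = emb A G / emb A F := by
  have hF0 : F ≠ 0 := hFp.ne_zero
  obtain ⟨g0, hg0, hgen⟩ := exists_gen 𝒜 η
  have hg0F : g0 ∈ Proj.basicOpen 𝒜 F := by
    rw [Proj.mem_basicOpen, hg0]
    intro h
    have h' : F ∈ (⊥ : Ideal A) := h
    exact hF0 (Ideal.mem_bot.1 h')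
  constructor
  · intro h
    have hyd : y ^ d ∈ 𝒜 d := by
      have := SetLike.pow_mem_graded (A := 𝒜) d hy
      simpa using this
    have hyη : η ∈ Proj.basicOpen 𝒜 (y ^ d) := by
      rw [Proj.mem_basicOpen, hη]
      intro h
      exact hyF (hFp.dvd_of_dvd_pow h)
    obtain ⟨W, hW, g, hηW, hg⟩ := h (Proj.basicOpen 𝒜 (y ^ d))
      (frac 𝒜 _ d F (y ^ d) hF hyd le_rfl) hyη (by
        rw [frac_nz 𝒜 _ d F (y ^ d) hF hyd le_rfl η hyη, not_not, hη])
    obtain ⟨n, a, ha, hf⟩ := sec_away 𝒜 hd hF f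
    have hgW : g0 ∈ W := hgen W ⟨η, hηW⟩
    have h1 : ev 𝒜 W η hηW g = (emb A F / emb A (y ^ d)) * (emb A a / emb A (F ^ n)) := by
      rw [ev_const 𝒜 W η g0 hηW hgW g]
      have h2 := congrArg (ev 𝒜 (W ⊓ Proj.basicOpen 𝒜 F) g0 ⟨hgW, hg0F⟩) hg
      refine Eq.trans h2 ?_
      refine (map_mul (ev 𝒜 (W ⊓ Proj.basicOpen 𝒜 F) g0 ⟨hgW, hg0F⟩) _ _).trans ?_
      exact congrArg₂ (· * ·) (ev_frc 𝒜 _ d F (y ^ d) hF hyd le_rfl g0 (hW hgW)) (hf g0 hg0F)
    obtain ⟨m, c, e, hc, he, hee, h3⟩ := ev_regAt 𝒜 W η η hηW hηW g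
    rw [h1] at h3
    have he0 : emb A e ≠ 0 := emb_ne (ne_zero_of_notMem 𝒜 hee)
    have hF0' : emb A F ≠ 0 := emb_ne hF0
    have hy0' : emb A (y ^ d) ≠ 0 := emb_ne (ne_zero_of_notMem 𝒜 hyη)
    have hFn0 : emb A (F ^ n) ≠ 0 := emb_ne (pow_ne_zero _ hF0)
    rw [hη] at hee
    rcases Nat.eq_zero_or_pos n with hn | hn
    · subst hn
      refine ⟨a * F, ?_, ?_⟩
      · have := SetLike.mul_mem_graded ha hF
        simpa using this
      · intro x hx
        rw [hf x hx, pow_zero, map_mul, map_one, div_one, mul_div_cancel_right₀ _ hF0']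
    · obtain ⟨n', rfl⟩ : ∃ n', n = n' + 1 := ⟨n - 1, by omega⟩
      have h4 : a * e = c * y ^ d * F ^ n' := by
        apply (emb_inj (A := A)).1
        rw [map_mul, map_mul, map_mul]
        rw [pow_succ, map_mul] at h3
        have hFn' : emb A (F ^ n') ≠ 0 := emb_ne (pow_ne_zero _ hF0)
        field_simp at h3 ⊢
        linear_combination h3
      have h5 : F ^ n' ∣ a := by
        apply hFp.pow_dvd_of_dvd_mul_right n' hee
        rw [h4]
        exact dvd_mul_left _ _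
      obtain ⟨G, rfl⟩ := h5
      refine ⟨G, ?_, ?_⟩
      · apply quot_homog 𝒜 (SetLike.pow_mem_graded n' hF) (pow_ne_zero _ hF0)
        have : n' • d + d = (n' + 1) * d := by
          rw [smul_eq_mul]; ring
        rw [this]
        exact ha
      · intro x hx
        rw [hf x hx, pow_succ, map_mul, map_mul]
        have hFn' : emb A (F ^ n') ≠ 0 := emb_ne (pow_ne_zero _ hF0)
        field_simp
  · rintro ⟨G, hG, hf⟩ V t hV ht
    obtain ⟨n, c, e, hc, he, hee, W, hηW, hWV, hWe, hW⟩ := ev_frac 𝒜 V η hV t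
    have hcη : F ∣ c := by
      rw [← hη]
      by_contra hcn
      apply ht
      exact (mem_basicOpen_iff 𝒜 V t η hV).2 ⟨n, c, e, hc, he, hcn, hee, hW η hV hηW⟩
    obtain ⟨c', rfl⟩ := hcη
    have hcG : c' * G ∈ 𝒜 n := by
      apply quot_homog 𝒜 hF hF0
      have := SetLike.mul_mem_graded hc hG
      rw [← mul_assoc, add_comm]
      exact this
    have he0 : emb A e ≠ 0 := emb_ne (ne_zero_of_notMem 𝒜 hee)
    have hF0' : emb A F ≠ 0 := emb_ne hF0
    refine ⟨W, hWV, frac 𝒜 W n (c' * G) e hcG he hWe, hηW, ?_⟩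
    apply sec_ext 𝒜
    intro x hx
    refine (ev_frc 𝒜 W n (c' * G) e hcG he hWe x hx.1).trans ?_
    refine Eq.trans ?_ (map_mul (ev 𝒜 _ x hx) _ _).symm
    refine Eq.trans ?_ (congrArg₂ (· * ·) (hW x (hWV hx.1) hx.1) (hf x hx.2)).symm
    rw [map_mul, map_mul]
    field_simp

end main

end

end Pool.Agent.R866.PJ
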