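import Pool.Agent.R866.PJ.Quad5
import Pool.Agent.Helper922.P1

set_option autoImplicit false
set_option linter.all false

/-! The quadric threefold in characteristic two. -/

open AlgebraicGeometry CategoryTheory MvPolynomial HomogeneousLocalization

namespace Pool.Agent.R866.PJ

open Pool.Agent.Helper922.VS

noncomputable section

variable (k : Type) [Field k]

attribute [local instance] MvPolynomial.gradedAlgebra

theorem integralQ : IsIntegral (Proj (GQ k)) := by
  refine Pool.Agent.Helper922.P1.isIntegral_of_cover (ι := Fin 4)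
    (fun i => Spec (CommRingCat.of (Away (GQ k) (xx k i))))
    (fun i => Proj.awayι (GQ k) (xx k i) (xx_mem k i) one_pos) ?_ ?_
  · intro y
    obtain ⟨i, hi⟩ := coverQ k y
    rw [← Proj.opensRange_awayι (GQ k) (xx k i) (xx_mem k i) one_pos] at hi
    obtain ⟨z, hz⟩ := hi
    exact ⟨i, z, hz⟩
  · intro a b
    obtain ⟨η, -⟩ := exists_eta k
    obtain ⟨g0, hg0, hgen⟩ := exists_gen (GQ k) η
    have hmem : ∀ i, g0 ∈ Proj.basicOpen (GQ k) (xx k i) := by
      intro i
      rw [Proj.mem_basicOpen, hg0]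
      intro h
      have h' : xx k i ∈ (⊥ : Ideal (SQ k)) := h
      exact xx_ne k i (Ideal.mem_bot.1 h')
    have ha := hmem a
    rw [← Proj.opensRange_awayι (GQ k) (xx k a) (xx_mem k a) one_pos] at ha
    obtain ⟨z, hz⟩ := ha
    refine ⟨z, ?_⟩
    rw [Proj.opensRange_awayι]
    rw [hz]
    exact hmem b

theorem dw_deg [CharP k 2] (a : SQ k) (ha : a ∈ GQ k 1) (n : ℕ) (b : SQ k) (hb : b ∈ GQ k n) :
    (a • dw k) b ∈ GQ k n := by
  cases n with
  | zero =>
    have h1 : b.im = 0 := by simpa [GQ, pre] using hb.2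
    have h2 : dw k b = 0 := by
      apply QuadraticAlgebra.ext
      · exact h1
      · rfl
    rw [Derivation.smul_apply, h2, smul_zero]
    exact zero_mem _
  | succ m =>
    have h2 : dw k b ∈ GQ k m := ⟨hb.2, zero_mem _⟩
    rw [Derivation.smul_apply, smul_eq_mul]
    have := SetLike.mul_mem_graded ha h2
    rwa [add_comm] at this

theorem main [CharP k 2] : ∃ (X : Scheme.{0}) (p : X ⟶ Spec (CommRingCat.of k))
    (L : LineSheaf X) (φ : MapToTangent p L), IsProjectiveVariety p ∧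
      SmoothOfRelativeDimension 3 p ∧ L.IsAmple ∧ φ.Nonzero ∧ φ.NowhereZero ∧
      ¬ ∃ e : X ≅ PSpace 3 k, e.hom ≫ PSpace.str 3 k = p := by
  have hz := toT_nowhereZero (GQ k) (xx k) (xx_mem k) (coverQ k) (dw k) (dw_deg k) (ww k) (ww_mem k)
    (by rfl) (fun i => by rfl)
  refine ⟨Proj (GQ k), str (GQ k), O1 (GQ k) (xx k) (xx_mem k) (coverQ k),
    toT (GQ k) (xx k) (xx_mem k) (coverQ k) (dw k) (dw_deg k),
    ⟨integralQ k, properQ k, ⟨_, O1_ample (GQ k) (xx k) (xx_mem k) (coverQ k)⟩⟩, smoothQ k,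
    O1_ample (GQ k) (xx k) (xx_mem k) (coverQ k), ?_, hz, ?_⟩
  · obtain ⟨η, -⟩ := exists_eta k
    obtain ⟨i, W, h, f, hf⟩ := hz η
    refine ⟨i, W, h, f, ?_⟩
    intro h0
    rw [h0] at hf
    have h1 : nz (0 : Reg (Proj (GQ k)) W) = ⊥ := Scheme.basicOpen_zero _ _
    rw [h1] at hf
    exact hf
  · rintro ⟨e, he⟩
    exact not_has5 k (Has5.of_iso (str (GQ k)) (PSpace.str 3 k) e he (has5 k))

end

end Pool.Agent.R866.PJ
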