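import Pool.Agent.R866.PJ.Inv
import Pool.Agent.Helper922.BundleDefs

set_option autoImplicit false
set_option linter.all false

/-! Invariance of `Has5` under isomorphisms over the base field. -/

open AlgebraicGeometry CategoryTheory

namespace Pool.Agent.R866.PJ

open Pool.Agent.Helper922.VS

noncomputable section

theorem rs_rs {X : Scheme.{0}} {U V W : X.Opens} (h1 : U ≤ V) (h2 : V ≤ W) (s : Reg X W) :
    rs h1 (rs h2 s) = rs (h1.trans h2) s := Pool.Agent.Helper922.Bundles.res_res h1 h2 s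

theorem rs_pl {X Y : Scheme.{0}} (f : Y ⟶ X) {U : X.Opens} {W W' : Y.Opens}
    (h : W ≤ f ⁻¹ᵁ U) (hW : W' ≤ W) (s : Reg X U) :
    rs hW (pl f h s) = pl f (hW.trans h) s := Pool.Agent.Helper922.Bundles.res_pull f h hW s

theorem pl_rs {X Y : Scheme.{0}} (f : Y ⟶ X) {U V : X.Opens} {W : Y.Opens}
    (h : W ≤ f ⁻¹ᵁ U) (hU : U ≤ V) (s : Reg X V) :
    pl f h (rs hU s) = pl f (h.trans (f.preimage_mono hU)) s :=
  Pool.Agent.Helper922.Bundles.pull_res f h hU s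

theorem pl_pl {X Y Z : Scheme.{0}} (f : Y ⟶ X) (g : Z ⟶ Y) {U : X.Opens} {V : Y.Opens}
    {W : Z.Opens} (h : V ≤ f ⁻¹ᵁ U) (h' : W ≤ g ⁻¹ᵁ V) (s : Reg X U) :
    pl g h' (pl f h s) = pl (g ≫ f) (h'.trans (g.preimage_mono h)) s :=
  Pool.Agent.Helper922.Bundles.pull_pull f g h h' s

theorem appLE_of_id {X : Scheme.{0}} {f : X ⟶ X} (hf : f = 𝟙 X) {U W : X.Opens} (h : W ≤ f ⁻¹ᵁ U)
    (h' : W ≤ U) : f.appLE U W h = X.presheaf.map (homOfLE h').op := by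
  subst hf
  simp [Scheme.Hom.appLE]
  exact Category.id_comp _

theorem pl_of_id {X : Scheme.{0}} {f : X ⟶ X} (hf : f = 𝟙 X) {U W : X.Opens} (h : W ≤ f ⁻¹ᵁ U)
    (h' : W ≤ U) (s : Reg X U) : pl f h s = rs h' s := by
  unfold pl pull rs res
  rw [appLE_of_id hf h h']

theorem rs_self {X : Scheme.{0}} {U : X.Opens} (h : U ≤ U) (s : Reg X U) : rs h s = s := by
  have h1 : X.presheaf.map (homOfLE h).op = 𝟙 _ := X.presheaf.map_id _
  exact congrArg (fun φ => (CommRingCat.Hom.hom φ) s) h1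

theorem mem_nz_pl {X Y : Scheme.{0}} (f : Y ⟶ X) {U : X.Opens} {W : Y.Opens}
    (h : W ≤ f ⁻¹ᵁ U) (s : Reg X U) (y : Y) :
    y ∈ nz (pl f h s) ↔ y ∈ W ∧ f y ∈ nz s :=
  Pool.Agent.Helper922.Bundles.mem_basicOpen_pull f h s y

theorem rs_mul' {X : Scheme.{0}} {U V : X.Opens} (h : U ≤ V) (s t : Reg X V) :
    rs h (s * t) = rs h s * rs h t := map_mul (res h) s t

theorem pl_mul' {X Y : Scheme.{0}} (f : Y ⟶ X) {U : X.Opens} {W : Y.Opens}
    (h : W ≤ f ⁻¹ᵁ U) (s t : Reg X U) : pl f h (s * t) = pl f h s * pl f h t :=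
  map_mul (pull f h) s t

theorem pl_base {k : Type} [Field k] {X Y : Scheme.{0}} (p : X ⟶ Spec (CommRingCat.of k))
    (q : Y ⟶ Spec (CommRingCat.of k)) (f : Y ⟶ X) (hf : f ≫ p = q) {U : X.Opens} {W : Y.Opens}
    (h : W ≤ f ⁻¹ᵁ U) (c : k) : pl f h (baseHom p U c) = baseHom q W c := by
  subst hf
  exact Pool.Agent.Helper922.Bundles.pull_pull p f (Pool.Agent.Helper922.Bundles.le_pre_top p U) h
    ((Scheme.ΓSpecIso (CommRingCat.of k)).inv.hom c)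

variable {k : Type} [Field k] {X Y : Scheme.{0}}

theorem SP_iso (f : X ⟶ Y) (g : Y ⟶ X) (h1 : f ≫ g = 𝟙 X) (h2 : g ≫ f = 𝟙 Y)
    (U : X.Opens) (η : X) (s : Reg X U) (hs : SP U η s) :
    SP (g ⁻¹ᵁ U) (f η) (pl g le_rfl s) := by
  have e1 : ∀ x : X, g (f x) = x := fun x => by
    rw [← Scheme.Hom.comp_apply, h1]; rfl
  have e2 : ∀ x : Y, f (g x) = x := fun x => by
    rw [← Scheme.Hom.comp_apply, h2]; rfl
  intro V t hV ht
  obtain ⟨W, hW, w, hηW, hw⟩ := hs (f ⁻¹ᵁ V) (pl f le_rfl t) hV (by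
    rw [mem_nz_pl]
    exact fun h => ht h.2)
  have hWV : g ⁻¹ᵁ W ≤ V := by
    intro y hy
    have := hW hy
    change f (g y) ∈ V at this
    rwa [e2] at this
  refine ⟨g ⁻¹ᵁ W, hWV, pl g le_rfl w, ?_, ?_⟩
  · change g (f η) ∈ W
    rwa [e1]
  · have h3 := congrArg (pl g (le_refl (g ⁻¹ᵁ (W ⊓ U)))) hw
    rw [pl_mul', pl_rs, pl_rs, pl_rs, pl_pl] at h3
    rw [rs_pl, rs_pl]
    refine Eq.trans h3 ?_
    congr 1
    exact pl_of_id h2 _ _ _

theorem Has5.of_iso (p : X ⟶ Spec (CommRingCat.of k)) (q : Y ⟶ Spec (CommRingCat.of k))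
    (e : X ≅ Y) (he : e.hom ≫ q = p) (h : Has5 p) : Has5 q := by
  have he' : e.inv ≫ p = q := by rw [← he, Iso.inv_hom_id_assoc]
  have e1 : ∀ x : X, e.inv (e.hom x) = x := fun x => by
    rw [← Scheme.Hom.comp_apply, Iso.hom_inv_id]; rfl
  have e2 : ∀ x : Y, e.hom (e.inv x) = x := fun x => by
    rw [← Scheme.Hom.comp_apply, Iso.inv_hom_id]; rfl
  obtain ⟨U, η, hη, hsp, ⟨f, hf⟩, b, hb, hli, hspan⟩ := h
  have hle : U ≤ e.hom ⁻¹ᵁ (e.inv ⁻¹ᵁ U) := by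
    intro x hx
    change e.inv (e.hom x) ∈ U
    rwa [e1]
  have back : ∀ s : Reg X U, pl e.hom hle (pl e.inv (le_refl (e.inv ⁻¹ᵁ U)) s) = s := by
    intro s
    rw [pl_pl, pl_of_id e.hom_inv_id _ le_rfl, rs_self]
  have forth : ∀ s : Reg Y (e.inv ⁻¹ᵁ U), pl e.inv (le_refl (e.inv ⁻¹ᵁ U)) (pl e.hom hle s) = s := by
    intro s
    rw [pl_pl, pl_of_id e.inv_hom_id _ le_rfl, rs_self]
  have hsum : ∀ c : Fin 5 → k, pl e.inv (le_refl (e.inv ⁻¹ᵁ U)) (∑ i, baseHom p U (c i) * b i) =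
      ∑ i, baseHom q (e.inv ⁻¹ᵁ U) (c i) * pl e.inv (le_refl (e.inv ⁻¹ᵁ U)) (b i) := by
    intro c
    refine (map_sum (pull e.inv (le_refl (e.inv ⁻¹ᵁ U))) _ _).trans ?_
    refine Finset.sum_congr rfl fun i _ => ?_
    refine (pl_mul' e.inv _ _ _).trans ?_
    rw [pl_base p q e.inv he']
  refine ⟨e.inv ⁻¹ᵁ U, e.hom η, ?_, ?_, ⟨pl e.inv le_rfl f, ?_⟩, fun i => pl e.inv le_rfl (b i),
    fun i => SP_iso e.hom e.inv e.hom_inv_id e.inv_hom_id U η (b i) (hb i), ?_, ?_⟩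
  · intro h
    change e.inv (e.hom η) ∈ U at h
    rw [e1] at h
    exact hη h
  · intro y hy V hV
    refine hsp (e.inv y) hy (e.hom ⁻¹ᵁ V) ?_
    change e.hom (e.inv y) ∈ V
    rwa [e2]
  · intro c hc
    apply hf c
    have := congrArg (pl e.hom hle) hc
    rw [back, pl_base q p e.hom he] at this
    exact this
  · intro c hc
    apply hli c
    have := congrArg (pl e.hom hle) ((hsum c).trans hc)
    rw [back] at this
    exact this.trans (map_zero (pull e.hom hle))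
  · intro s hs
    have h3 : SP U η (pl e.hom hle s) := by
      have h4 := SP_iso e.inv e.hom e.inv_hom_id e.hom_inv_id (e.inv ⁻¹ᵁ U) (e.hom η) s hs
      intro V t hV ht
      obtain ⟨W, hW, g, hηW, hg⟩ := h4 V t (by rw [e1]; exact hV) (by rw [e1]; exact ht)
      rw [e1] at hηW
      refine ⟨W, hW, g, hηW, ?_⟩
      have hh : W ⊓ U ≤ W ⊓ e.hom ⁻¹ᵁ (e.inv ⁻¹ᵁ U) := inf_le_inf_left _ hle
      have h5 := congrArg (rs hh) hg
      rw [rs_mul', rs_rs, rs_rs, rs_rs, rs_pl] at h5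
      rw [rs_pl]
      exact h5
    obtain ⟨c, hc⟩ := hspan _ h3
    refine ⟨c, ?_⟩
    rw [← forth s, hc, hsum]

end

end Pool.Agent.R866.PJ
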