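import Pool.Agent.R866.PJ.Cls
import Pool.Agent.R866.PJ.Trans

set_option autoImplicit false
set_option linter.all false

/-! Projective three-space does not have the property `Has5`. -/

open AlgebraicGeometry CategoryTheory MvPolynomial

namespace Pool.Agent.R866.PJ

open Pool.Agent.Helper922.VS

noncomputable section

variable (k : Type) [Field k]

abbrev R4 : Type := MvPolynomial (Fin 4) k

attribute [local instance] MvPolynomial.gradedAlgebra

theorem R4_zero (a : R4 k) (ha : a ∈ homogeneousSubmodule (Fin 4) k 0) :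
    ∃ c : k, a = algebraMap k (R4 k) c := by
  have h1 : a.totalDegree = 0 := by
    by_cases h0 : a = 0
    · simp [h0]
    · exact ((mem_homogeneousSubmodule _ _).1 ha).totalDegree h0
  rw [totalDegree_eq_zero_iff_eq_C] at h1
  exact ⟨a.coeff 0, h1⟩

theorem R4_lin (F : R4 k) (hF : Prime F) : ∃ y ∈ homogeneousSubmodule (Fin 4) k 1, ¬ F ∣ y := by
  by_contra hcon
  push Not at hcon
  have h0 := hcon (X 0) (isHomogeneous_X k 0)
  have h1 := hcon (X 1) (isHomogeneous_X k 1)
  have h2 : Associated F (X 0) := (hF.irreducible).associated_of_dvd (X_prime).irreducible h0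
  have h3 : (X 0 : R4 k) ∣ X 1 := h2.symm.dvd.trans h1
  rw [X_dvd_X] at h3
  exact absurd h3 (by decide)

/-- Six linearly independent forms of degree `d + 2`. -/
theorem six_forms (d : ℕ) : ∃ v : Fin 6 → homogeneousSubmodule (Fin 4) k (d + 2),
    LinearIndependent k v := by
  let e : Fin 6 → (Fin 4 →₀ ℕ) := ![Finsupp.single 0 (d + 2),
    Finsupp.single 0 (d + 1) + Finsupp.single 1 1,
    Finsupp.single 0 (d + 1) + Finsupp.single 2 1, Finsupp.single 0 (d + 1) + Finsupp.single 3 1,
    Finsupp.single 0 d + Finsupp.single 1 2,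
    Finsupp.single 0 d + Finsupp.single 2 2]
  have hdeg : ∀ i, (e i).degree = d + 2 := by
    intro i
    fin_cases i
    · exact Finsupp.degree_single _ _
    all_goals
      refine (map_add Finsupp.degree _ _).trans ?_
      rw [Finsupp.degree_single, Finsupp.degree_single]
  have hinj : Function.Injective e := by
    intro i j hij
    have h1 := DFunLike.congr_fun hij 1
    have h2 := DFunLike.congr_fun hij 2
    have h3 := DFunLike.congr_fun hij 3
    fin_cases i <;> fin_cases j <;> first | rfl | (exfalso; revert h1 h2 h3; simp [e])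
  refine ⟨fun i => ⟨monomial (e i) 1, isHomogeneous_monomial 1 (hdeg i)⟩, ?_⟩
  apply LinearIndependent.of_comp (homogeneousSubmodule (Fin 4) k (d + 2)).subtype
  have h := (basisMonomials (Fin 4) k).linearIndependent.comp e hinj
  convert h using 1
  ext i
  simp

theorem one_forms (a : R4 k) (ha : a ∈ homogeneousSubmodule (Fin 4) k 1) :
    ∃ c : Fin 4 → k, a = ∑ i, C (c i) * X i := by
  refine ⟨fun i => a.coeff (Finsupp.single i 1), ?_⟩
  ext m
  rw [coeff_sum]
  simp only [coeff_C_mul, coeff_X']
  by_cases hm : ∃ i, Finsupp.single i 1 = m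
  · obtain ⟨i, rfl⟩ := hm
    rw [Finset.sum_eq_single i]
    · simp
    · intro j _ hj
      rw [if_neg, mul_zero]
      intro h
      exact hj (Finsupp.single_left_injective one_ne_zero h)
    · intro h
      exact absurd (Finset.mem_univ i) h
  · rw [Finset.sum_eq_zero]
    · by_contra hne
      have h1 := (mem_homogeneousSubmodule 1 a).1 ha hne
      have h1' : m.degree = 1 := (congrArg (fun f => f m) Finsupp.degree_eq_weight_one).trans h1
      apply hm
      have h2 : m ∈ Set.range (fun a : Fin 4 => Finsupp.single a 1) := by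
        rw [Finsupp.range_single_one]
        exact h1'
      exact h2
    · intro i _
      rw [if_neg, mul_zero]
      exact fun h => hm ⟨i, h⟩

theorem finrank_ne (d : ℕ) (hd : 0 < d) (v : Fin 5 → homogeneousSubmodule (Fin 4) k d)
    (hv : LinearIndependent k v) (hs : ⊤ ≤ Submodule.span k (Set.range v)) : False := by
  rcases Nat.lt_or_ge d 2 with h2 | h2
  · obtain rfl : d = 1 := by omega
    have h3 : Submodule.span k (Set.range (fun i : Fin 4 =>
        (⟨X i, isHomogeneous_X k i⟩ : homogeneousSubmodule (Fin 4) k 1))) = ⊤ := by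
      rw [eq_top_iff]
      rintro ⟨a, ha⟩ -
      obtain ⟨c, hc⟩ := one_forms k a ha
      have h4 : (⟨a, ha⟩ : homogeneousSubmodule (Fin 4) k 1) =
          ∑ i, c i • (⟨X i, isHomogeneous_X k i⟩ : homogeneousSubmodule (Fin 4) k 1) := by
        apply Subtype.ext
        rw [Submodule.coe_sum]
        simp only [hc, Submodule.coe_smul, MvPolynomial.smul_eq_C_mul]
      rw [h4]
      exact Submodule.sum_mem _ fun i _ => Submodule.smul_mem _ _ (Submodule.subset_span ⟨i, rfl⟩)
    have h5 := finrank_range_le_card (R := k) (fun i : Fin 4 =>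
        (⟨X i, isHomogeneous_X k i⟩ : homogeneousSubmodule (Fin 4) k 1))
    have h6 : Module.finrank k (homogeneousSubmodule (Fin 4) k 1) = 5 := by
      rw [Module.finrank_eq_card_basis (Module.Basis.mk hv hs), Fintype.card_fin]
    rw [Set.finrank, h3, finrank_top, h6, Fintype.card_fin] at h5
    omega
  · obtain ⟨d', rfl⟩ : ∃ d', d = d' + 2 := ⟨d - 2, by omega⟩
    obtain ⟨w, hw⟩ := six_forms k d'
    have : Module.Finite k (homogeneousSubmodule (Fin 4) k (d' + 2)) :=
      Module.Finite.of_basis (Module.Basis.mk hv hs)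
    have h5 := hw.fintype_card_le_finrank
    have h6 : Module.finrank k (homogeneousSubmodule (Fin 4) k (d' + 2)) = 5 := by
      rw [Module.finrank_eq_card_basis (Module.Basis.mk hv hs), Fintype.card_fin]
    rw [h6, Fintype.card_fin] at h5
    omega

theorem not_has5 : ¬ Has5 (PSpace.str 3 k) := by
  rintro ⟨U, η, hη, hsp, hf, b, hb, hli, hspan⟩
  obtain ⟨d, F, hd, hF, hFp, hU, hηF⟩ := classify (homogeneousSubmodule (Fin 4) k) (R4_zero k)
    (R4_lin k) U η hη hsp hf
  subst hU
  obtain ⟨y, hy, hyF⟩ := R4_lin k F hFp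
  have key := fun f => SP_iff (homogeneousSubmodule (Fin 4) k) hd hF hFp hy η hηF hyF f
  obtain ⟨g0, hg0, hgen⟩ := exists_gen (homogeneousSubmodule (Fin 4) k) η
  have hg0F : g0 ∈ Proj.basicOpen (homogeneousSubmodule (Fin 4) k) F := by
    rw [Proj.mem_basicOpen, hg0]
    intro h
    have h' : F ∈ (⊥ : Ideal (R4 k)) := h
    exact hFp.ne_zero (Ideal.mem_bot.1 h')
  have hF0 : emb (R4 k) F ≠ 0 := emb_ne hFp.ne_zero
  choose G hG hGev using fun i => (key (b i)).1 (hb i)
  have hsum : ∀ c : Fin 5 → k, ev (homogeneousSubmodule (Fin 4) k) _ g0 hg0F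
      (∑ i, baseHom (PSpace.str 3 k) _ (c i) * b i) = emb (R4 k) (∑ i, C (c i) * G i) / emb _ F := by
    intro c
    refine (map_sum (ev (homogeneousSubmodule (Fin 4) k) _ g0 hg0F) _ _).trans ?_
    rw [map_sum, Finset.sum_div]
    refine Finset.sum_congr rfl fun i _ => ?_
    refine (map_mul (ev (homogeneousSubmodule (Fin 4) k) _ g0 hg0F) _ _).trans ?_
    refine (congrArg₂ (· * ·) (ev_base (homogeneousSubmodule (Fin 4) k) _ g0 hg0F (c i))
      (hGev i g0 hg0F)).trans ?_
    rw [map_mul, mul_div_assoc]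
    rfl
  refine finrank_ne k d hd (fun i => ⟨G i, hG i⟩) ?_ ?_
  · rw [Fintype.linearIndependent_iff]
    intro c hc
    apply hli c
    apply ev_inj (homogeneousSubmodule (Fin 4) k) _ g0 hg0F
    refine (hsum c).trans ?_
    have h1 : ∑ i, C (c i) * G i = 0 := by
      have h2 := congrArg Subtype.val hc
      rw [Submodule.coe_sum] at h2
      simpa [MvPolynomial.smul_eq_C_mul] using h2
    rw [h1, map_zero, zero_div]
    exact (map_zero (ev (homogeneousSubmodule (Fin 4) k) _ g0 hg0F)).symm
  · rintro ⟨H, hH⟩ -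
    have h1 : SP (Proj.basicOpen (homogeneousSubmodule (Fin 4) k) F) η
        (frac (homogeneousSubmodule (Fin 4) k) _ d H F hH hF le_rfl) :=
      (key _).2 ⟨H, hH, fun x hx => ev_frc (homogeneousSubmodule (Fin 4) k) _ d H F hH hF le_rfl x hx⟩
    obtain ⟨c, hc⟩ := hspan _ h1
    have h2 := congrArg (ev (homogeneousSubmodule (Fin 4) k) _ g0 hg0F) hc
    have h3 := (ev_frc (homogeneousSubmodule (Fin 4) k) _ d H F hH hF le_rfl g0 hg0F).symm.trans
      (h2.trans (hsum c))
    rw [div_left_inj' hF0, emb_inj] at h3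
    have h4 : (⟨H, hH⟩ : homogeneousSubmodule (Fin 4) k d) = ∑ i, c i • (⟨G i, hG i⟩ :
        homogeneousSubmodule (Fin 4) k d) := by
      apply Subtype.ext
      rw [Submodule.coe_sum]
      simp only [h3, Submodule.coe_smul, MvPolynomial.smul_eq_C_mul]
    rw [h4]
    exact Submodule.sum_mem _ fun i _ => Submodule.smul_mem _ _ (Submodule.subset_span ⟨i, rfl⟩)

end

end Pool.Agent.R866.PJ
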