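import Pool.Agent.R866.PJ.Str

set_option autoImplicit false
set_option linter.all false

/-! The homogeneous coordinate ring of the quadric `w² = x₀ x₁ + x₂ x₃`. -/

open AlgebraicGeometry CategoryTheory MvPolynomial

namespace Pool.Agent.R866.PJ

open Pool.Agent.Helper922.VS

noncomputable section

variable (k : Type) [Field k]

/-- The quadratic form in four variables. -/
abbrev qf : MvPolynomial (Fin 4) k := X 0 * X 1 + X 2 * X 3

/-- The ring `k[x₀, x₁, x₂, x₃][w]` with `w² = x₀ x₁ + x₂ x₃`. -/
abbrev SQ : Type := QuadraticAlgebra (MvPolynomial (Fin 4) k) (qf k) 0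

attribute [local instance] MvPolynomial.gradedAlgebra

/-- Forms of degree `n - 1`. -/
def pre (n : ℕ) : Submodule k (MvPolynomial (Fin 4) k) :=
  match n with
  | 0 => ⊥
  | n + 1 => homogeneousSubmodule (Fin 4) k n

theorem qf_homog : qf k ∈ homogeneousSubmodule (Fin 4) k 2 :=
  add_mem (((isHomogeneous_X k 0).mul (isHomogeneous_X k 1)))
    (((isHomogeneous_X k 2).mul (isHomogeneous_X k 3)))

theorem pre_mul {n m : ℕ} {a b : MvPolynomial (Fin 4) k} (ha : a ∈ pre k n)
    (hb : b ∈ homogeneousSubmodule (Fin 4) k m) : a * b ∈ pre k (n + m) := by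
  cases n with
  | zero =>
    have : a = 0 := by simpa [pre] using ha
    rw [this, zero_mul]
    exact zero_mem _
  | succ n =>
    have h : n + 1 + m = (n + m) + 1 := by ring
    rw [h]
    exact IsHomogeneous.mul ha hb

theorem pre_pre {n m : ℕ} {a b : MvPolynomial (Fin 4) k} (ha : a ∈ pre k n)
    (hb : b ∈ pre k m) : qf k * a * b ∈ homogeneousSubmodule (Fin 4) k (n + m) := by
  cases n with
  | zero =>
    have : a = 0 := by simpa [pre] using ha
    rw [this, mul_zero, zero_mul]
    exact zero_mem _
  | succ n =>
    cases m with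
    | zero =>
      have : b = 0 := by simpa [pre] using hb
      rw [this, mul_zero]
      exact zero_mem _
    | succ m =>
      have h : n + 1 + (m + 1) = 2 + n + m := by ring
      rw [h]
      exact ((qf_homog k).mul ha).mul hb

/-- The grading. -/
def GQ (n : ℕ) : Submodule k (SQ k) where
  carrier := {z | z.re ∈ homogeneousSubmodule (Fin 4) k n ∧ z.im ∈ pre k n}
  add_mem' ha hb := ⟨add_mem ha.1 hb.1, add_mem ha.2 hb.2⟩
  zero_mem' := ⟨zero_mem _, zero_mem _⟩
  smul_mem' c _ ha := ⟨Submodule.smul_mem _ c ha.1, Submodule.smul_mem _ c ha.2⟩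

theorem mem_GQ {n : ℕ} {z : SQ k} : z ∈ GQ k n ↔ z.re ∈ homogeneousSubmodule (Fin 4) k n ∧
    z.im ∈ pre k n := Iff.rfl

instance : SetLike.GradedMonoid (GQ k) where
  one_mem := ⟨isHomogeneous_one _ _, zero_mem _⟩
  mul_mem n m a b ha hb := by
    refine ⟨?_, ?_⟩
    · rw [QuadraticAlgebra.re_mul]
      exact add_mem (IsHomogeneous.mul ha.1 hb.1) (pre_pre k ha.2 hb.2)
    · rw [QuadraticAlgebra.im_mul, zero_mul, zero_mul, add_zero]
      refine add_mem ?_ (pre_mul k ha.2 hb.1)
      rw [mul_comm, add_comm]
      exact pre_mul k hb.2 ha.1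

/-- inclusion of the real parts -/
def inc1 (n : ℕ) : homogeneousSubmodule (Fin 4) k n →ₗ[k] GQ k n where
  toFun r := ⟨⟨r.1, 0⟩, ⟨r.2, zero_mem _⟩⟩
  map_add' r s := by
    apply Subtype.ext
    apply QuadraticAlgebra.ext
    · rfl
    · exact (add_zero _).symm
  map_smul' c r := by
    apply Subtype.ext
    apply QuadraticAlgebra.ext
    · rfl
    · exact (smul_zero c).symm

/-- inclusion of the imaginary parts -/
def inc2 (n : ℕ) : homogeneousSubmodule (Fin 4) k n →ₗ[k] GQ k (n + 1) where
  toFun r := ⟨⟨0, r.1⟩, ⟨zero_mem _, r.2⟩⟩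
  map_add' r s := by
    apply Subtype.ext
    apply QuadraticAlgebra.ext
    · exact (add_zero _).symm
    · rfl
  map_smul' c r := by
    apply Subtype.ext
    apply QuadraticAlgebra.ext
    · exact (smul_zero c).symm
    · rfl

abbrev HD : Type := DirectSum ℕ fun n => homogeneousSubmodule (Fin 4) k n

def m1 : HD k →ₗ[k] DirectSum ℕ fun n => GQ k n :=
  DirectSum.toModule k ℕ _ (fun n => (DirectSum.lof k ℕ (fun n => GQ k n) n).comp (inc1 k n))

def m2 : HD k →ₗ[k] DirectSum ℕ fun n => GQ k n :=
  DirectSum.toModule k ℕ _ (fun n => (DirectSum.lof k ℕ (fun n => GQ k n) (n + 1)).comp (inc2 k n))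

theorem m1_of (n : ℕ) (r : homogeneousSubmodule (Fin 4) k n) :
    m1 k (DirectSum.of _ n r) = DirectSum.of _ n (inc1 k n r) :=
  DirectSum.toModule_lof _ _ _

theorem m2_of (n : ℕ) (r : homogeneousSubmodule (Fin 4) k n) :
    m2 k (DirectSum.of _ n r) = DirectSum.of _ (n + 1) (inc2 k n r) :=
  DirectSum.toModule_lof _ _ _

def decQ (z : SQ k) : DirectSum ℕ fun n => GQ k n :=
  m1 k (DirectSum.decompose (homogeneousSubmodule (Fin 4) k) z.re) +
    m2 k (DirectSum.decompose (homogeneousSubmodule (Fin 4) k) z.im)

theorem decQ_add (z w : SQ k) : decQ k (z + w) = decQ k z + decQ k w := by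
  unfold decQ
  rw [QuadraticAlgebra.re_add, QuadraticAlgebra.im_add, DirectSum.decompose_add,
    DirectSum.decompose_add, map_add, map_add]
  abel

theorem coe_m1 (u : HD k) : DirectSum.coeAddMonoidHom (GQ k) (m1 k u) =
    (⟨DirectSum.coeAddMonoidHom (homogeneousSubmodule (Fin 4) k) u, 0⟩ : SQ k) := by
  induction u using DirectSum.induction_on with
  | zero => simp; rfl
  | of n r => rw [m1_of, DirectSum.coeAddMonoidHom_of, DirectSum.coeAddMonoidHom_of]; rfl
  | add u v hu hv =>
    rw [map_add, map_add, hu, hv, map_add]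
    apply QuadraticAlgebra.ext
    · rfl
    · exact add_zero _

theorem coe_m2 (u : HD k) : DirectSum.coeAddMonoidHom (GQ k) (m2 k u) =
    (⟨0, DirectSum.coeAddMonoidHom (homogeneousSubmodule (Fin 4) k) u⟩ : SQ k) := by
  induction u using DirectSum.induction_on with
  | zero => simp; rfl
  | of n r => rw [m2_of, DirectSum.coeAddMonoidHom_of, DirectSum.coeAddMonoidHom_of]; rfl
  | add u v hu hv =>
    rw [map_add, map_add, hu, hv, map_add]
    apply QuadraticAlgebra.ext
    · exact add_zero _
    · rfl

instance : GradedAlgebra (GQ k) :=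
  { (inferInstance : SetLike.GradedMonoid (GQ k)) with
    decompose' := decQ k
    left_inv := by
      intro z
      unfold decQ
      rw [map_add, coe_m1, coe_m2]
      have h1 := fun a => (DirectSum.decompose (homogeneousSubmodule (Fin 4) k)).left_inv a
      have h2 : ∀ a : MvPolynomial (Fin 4) k, DirectSum.coeAddMonoidHom
          (homogeneousSubmodule (Fin 4) k) (DirectSum.decompose (homogeneousSubmodule (Fin 4) k) a)
            = a := DirectSum.Decomposition.left_inv
      rw [h2, h2]
      apply QuadraticAlgebra.ext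
      · exact add_zero _
      · exact zero_add _
    right_inv := by
      intro u
      induction u using DirectSum.induction_on with
      | zero =>
        rw [map_zero]
        unfold decQ
        rw [QuadraticAlgebra.re_zero, QuadraticAlgebra.im_zero, DirectSum.decompose_zero,
          map_zero, map_zero, add_zero]
      | of n x =>
        rw [DirectSum.coeAddMonoidHom_of]
        obtain ⟨⟨r, s⟩, hr, hs⟩ := x
        simp only at hr hs
        unfold decQ
        simp only
        have h1 : DirectSum.decompose (homogeneousSubmodule (Fin 4) k) r =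
            DirectSum.of _ n ⟨r, hr⟩ := DirectSum.decompose_of_mem _ hr
        rw [h1, m1_of]
        cases n with
        | zero =>
          have h2 : s = 0 := by simpa [pre] using hs
          subst h2
          rw [DirectSum.decompose_zero, map_zero, add_zero]
          rfl
        | succ n =>
          have h2 : DirectSum.decompose (homogeneousSubmodule (Fin 4) k) s =
              DirectSum.of _ n ⟨s, hs⟩ :=
            DirectSum.decompose_of_mem (homogeneousSubmodule (Fin 4) k)
              (show s ∈ homogeneousSubmodule (Fin 4) k n from hs)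
          rw [h2, m2_of, ← map_add]
          congr 1
          apply Subtype.ext
          apply QuadraticAlgebra.ext
          · exact add_zero _
          · exact zero_add _
      | add u v hu hv => rw [map_add, decQ_add, hu, hv] }

end

end Pool.Agent.R866.PJ
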