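import Pool.Agent.R866.PJ.Quad

set_option autoImplicit false
set_option linter.all false

/-! Algebraic properties of the coordinate ring of the quadric. -/

open AlgebraicGeometry CategoryTheory MvPolynomial

namespace Pool.Agent.R866.PJ

open Pool.Agent.Helper922.VS

noncomputable section

variable (k : Type) [Field k]

attribute [local instance] MvPolynomial.gradedAlgebra

theorem degreeOf_qf : degreeOf 0 (qf k) = 1 := by
  apply le_antisymm
  · refine (degreeOf_add_le _ _ _).trans ?_
    refine max_le ?_ ?_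
    · refine (degreeOf_mul_le _ _ _).trans ?_
      rw [degreeOf_X, degreeOf_X]
      simp
    · refine (degreeOf_mul_le _ _ _).trans ?_
      rw [degreeOf_X, degreeOf_X]
      simp
  · rw [degreeOf_eq_sup]
    have h : Finsupp.single (0 : Fin 4) 1 + Finsupp.single 1 1 ∈ (qf k).support := by
      rw [mem_support_iff, coeff_add]
      have h1 : coeff (Finsupp.single (0 : Fin 4) 1 + Finsupp.single 1 1)
          (X 0 * X 1 : MvPolynomial (Fin 4) k) = 1 := by
        have : (X 0 * X 1 : MvPolynomial (Fin 4) k) =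
            monomial (Finsupp.single (0 : Fin 4) 1 + Finsupp.single 1 1) 1 := by
          rw [X, X, monomial_mul, one_mul]
        rw [this, coeff_monomial, if_pos rfl]
      have h2 : coeff (Finsupp.single (0 : Fin 4) 1 + Finsupp.single 1 1)
          (X 2 * X 3 : MvPolynomial (Fin 4) k) = 0 := by
        have : (X 2 * X 3 : MvPolynomial (Fin 4) k) =
            monomial (Finsupp.single (2 : Fin 4) 1 + Finsupp.single 3 1) 1 := by
          rw [X, X, monomial_mul, one_mul]
        rw [this, coeff_monomial, if_neg]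
        intro h
        have := DFunLike.congr_fun h 0
        simp at this
      rw [h1, h2]
      simp
    have h3 := Finset.le_sup (f := fun m : Fin 4 →₀ ℕ => m 0) h
    refine le_trans ?_ h3
    simp

theorem qf_ne : qf k ≠ 0 := by
  intro h
  have := degreeOf_qf k
  rw [h] at this
  simp at this

theorem sq_ne {r s : MvPolynomial (Fin 4) k} (h : r * r = qf k * s * s) : s = 0 := by
  by_contra hs
  have hr : r ≠ 0 := by
    rintro rfl
    rw [mul_zero] at h
    exact mul_ne_zero (mul_ne_zero (qf_ne k) hs) hs h.symm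
  have h1 := congrArg (degreeOf 0) h
  rw [degreeOf_mul_eq hr hr, degreeOf_mul_eq (mul_ne_zero (qf_ne k) hs) hs,
    degreeOf_mul_eq (qf_ne k) hs, degreeOf_qf] at h1
  omega

theorem sq_ne' {r s : MvPolynomial (Fin 4) k} (h : r * r = X 2 * X 3 * s * s) : s = 0 := by
  by_contra hs
  have hX : (X 2 * X 3 : MvPolynomial (Fin 4) k) ≠ 0 := mul_ne_zero (X_ne_zero _) (X_ne_zero _)
  have hr : r ≠ 0 := by
    rintro rfl
    rw [mul_zero] at h
    exact mul_ne_zero (mul_ne_zero hX hs) hs h.symm
  have h1 := congrArg (degreeOf 2) h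
  rw [degreeOf_mul_eq hr hr, degreeOf_mul_eq (mul_ne_zero hX hs) hs,
    degreeOf_mul_eq hX hs, degreeOf_mul_eq (X_ne_zero _) (X_ne_zero _), degreeOf_X, degreeOf_X] at h1
  simp at h1
  omega

theorem norm_zero_iff (z : SQ k) (h : z.norm = 0) : z = 0 := by
  rw [QuadraticAlgebra.norm_def, zero_mul, zero_mul, add_zero, sub_eq_zero] at h
  have h1 := sq_ne k h
  rw [h1, mul_zero, mul_self_eq_zero] at h
  exact QuadraticAlgebra.ext h h1

instance : IsDomain (SQ k) := by
  have : NoZeroDivisors (SQ k) := by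
    constructor
    intro z w h
    have h1 := congrArg QuadraticAlgebra.norm h
    rw [map_mul, QuadraticAlgebra.norm_zero, mul_eq_zero] at h1
    rcases h1 with h1 | h1
    · exact Or.inl (norm_zero_iff k z h1)
    · exact Or.inr (norm_zero_iff k w h1)
  exact NoZeroDivisors.to_isDomain _

/-- Setting `x₀ = 0`. -/
def phi0 : MvPolynomial (Fin 4) k →ₐ[k] MvPolynomial (Fin 4) k :=
  aeval (fun i => if i = 0 then 0 else X i)

theorem dvd_sub_phi0 (r : MvPolynomial (Fin 4) k) : X 0 ∣ r - phi0 k r := by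
  induction r using MvPolynomial.induction_on with
  | C a => simp [phi0]
  | add p q hp hq =>
    rw [map_add]
    have : p + q - (phi0 k p + phi0 k q) = (p - phi0 k p) + (q - phi0 k q) := by ring
    rw [this]
    exact dvd_add hp hq
  | mul_X p i hp =>
    rw [map_mul]
    have : p * X i - phi0 k p * phi0 k (X i) = (p - phi0 k p) * X i +
        phi0 k p * (X i - phi0 k (X i)) := by ring
    rw [this]
    refine dvd_add (hp.mul_right _) (Dvd.dvd.mul_left ?_ _)
    by_cases hi : i = 0
    · subst hi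
      simp [phi0]
    · simp [phi0, hi]

theorem X0_dvd_iff (r : MvPolynomial (Fin 4) k) : X 0 ∣ r ↔ phi0 k r = 0 := by
  constructor
  · rintro ⟨t, rfl⟩
    rw [map_mul]
    have : phi0 k (X 0) = 0 := by simp [phi0]
    rw [this, zero_mul]
  · intro h
    have := dvd_sub_phi0 k r
    rwa [h, sub_zero] at this

theorem X0_dvd_norm {r s : MvPolynomial (Fin 4) k} (h : X 0 ∣ r * r - qf k * s * s) :
    X 0 ∣ r ∧ X 0 ∣ s := by
  rw [X0_dvd_iff] at h
  have hq : phi0 k (qf k) = X 2 * X 3 := by simp [phi0, qf]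
  rw [map_sub, map_mul, map_mul, map_mul, hq, sub_eq_zero] at h
  have h1 := sq_ne' k h
  rw [h1, mul_zero, mul_self_eq_zero] at h
  exact ⟨(X0_dvd_iff k r).2 h, (X0_dvd_iff k s).2 h1⟩

/-- The coordinates. -/
def xx (i : Fin 4) : SQ k := ⟨X i, 0⟩

/-- The coordinate `w`. -/
def ww : SQ k := ⟨0, 1⟩

theorem xx_mem (i : Fin 4) : xx k i ∈ GQ k 1 := ⟨isHomogeneous_X k i, zero_mem _⟩

theorem ww_mem : ww k ∈ GQ k 1 := ⟨zero_mem _, isHomogeneous_one _ _⟩

theorem ww_sq : ww k * ww k = xx k 0 * xx k 1 + xx k 2 * xx k 3 := by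
  apply QuadraticAlgebra.ext
  · simp [ww, xx]
  · simp [ww, xx]

theorem xx_dvd_iff (i : Fin 4) (z : SQ k) : xx k i ∣ z ↔ X i ∣ z.re ∧ X i ∣ z.im := by
  constructor
  · rintro ⟨t, rfl⟩
    simp [xx]
  · rintro ⟨⟨a, ha⟩, ⟨b, hb⟩⟩
    refine ⟨⟨a, b⟩, ?_⟩
    apply QuadraticAlgebra.ext
    · simp [xx, ha]
    · simp [xx, hb]

theorem xx0_prime : Prime (xx k 0) := by
  refine ⟨?_, ?_, ?_⟩
  · intro h
    have := congrArg QuadraticAlgebra.re h
    exact X_ne_zero (R := k) (0 : Fin 4) this
  · intro h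
    have h1 : xx k 0 ∣ 1 := isUnit_iff_dvd_one.1 h
    rw [xx_dvd_iff] at h1
    have h2 : (X 0 : MvPolynomial (Fin 4) k) ∣ 1 := h1.1
    rw [X0_dvd_iff, map_one] at h2
    exact one_ne_zero h2
  · intro z w h
    have h1 : (X 0 : MvPolynomial (Fin 4) k) ∣ z.norm * w.norm := by
      rw [← map_mul]
      obtain ⟨t, ht⟩ := h
      rw [ht, map_mul]
      have : (xx k 0).norm = X 0 * X 0 := by
        rw [QuadraticAlgebra.norm_def]
        simp [xx]
      rw [this, mul_assoc]
      exact dvd_mul_right _ _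
    rcases (X_prime (R := k) (i := (0 : Fin 4))).dvd_or_dvd h1 with h2 | h2
    · left
      rw [QuadraticAlgebra.norm_def, zero_mul, zero_mul, add_zero] at h2
      exact (xx_dvd_iff k 0 z).2 (X0_dvd_norm k h2)
    · right
      rw [QuadraticAlgebra.norm_def, zero_mul, zero_mul, add_zero] at h2
      exact (xx_dvd_iff k 0 w).2 (X0_dvd_norm k h2)

/-- The derivation `∂/∂w` in characteristic two. -/
def dw [CharP k 2] : Derivation k (SQ k) (SQ k) where
  toFun z := ⟨z.im, 0⟩
  map_add' z w := by
    apply QuadraticAlgebra.ext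
    · rfl
    · exact (add_zero _).symm
  map_smul' c z := by
    apply QuadraticAlgebra.ext
    · rfl
    · exact (smul_zero c).symm
  map_one_eq_zero' := rfl
  leibniz' z w := by
    have h2 : (2 : MvPolynomial (Fin 4) k) = 0 := CharTwo.two_eq_zero
    apply QuadraticAlgebra.ext
    · simp
      ring
    · simp
      linear_combination (- z.im * w.im) * h2

end

end Pool.Agent.R866.PJ
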