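import Pool.Agent.R866.PJ.Quad2
import Pool.Agent.R866.PJ.P3

set_option autoImplicit false
set_option linter.all false

/-! The quadric: covering, ampleness, property `Has5`. -/

open AlgebraicGeometry CategoryTheory MvPolynomial

namespace Pool.Agent.R866.PJ

open Pool.Agent.Helper922.VS

noncomputable section

variable (k : Type) [Field k]

attribute [local instance] MvPolynomial.gradedAlgebra

theorem adjoin_top : Algebra.adjoin (GQ k 0) (Set.range (fun o : Option (Fin 4) =>
    o.elim (ww k) (xx k))) = ⊤ := by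
  rw [eq_top_iff]
  have hC : ∀ r : MvPolynomial (Fin 4) k, (⟨r, 0⟩ : SQ k) ∈ Algebra.adjoin (GQ k 0)
      (Set.range (fun o : Option (Fin 4) => o.elim (ww k) (xx k))) := by
    intro r
    induction r using MvPolynomial.induction_on with
    | C a => exact Subalgebra.algebraMap_mem _ (⟨⟨C a, 0⟩, ⟨isHomogeneous_C _ _, zero_mem _⟩⟩ : GQ k 0)
    | add p q hp hq =>
      have : (⟨p + q, 0⟩ : SQ k) = ⟨p, 0⟩ + ⟨q, 0⟩ := by
        apply QuadraticAlgebra.ext
        · rfl
        · exact (add_zero _).symm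
      rw [this]
      exact add_mem hp hq
    | mul_X p i hp =>
      have : (⟨p * X i, 0⟩ : SQ k) = ⟨p, 0⟩ * xx k i := by
        apply QuadraticAlgebra.ext
        · simp [xx]
        · simp [xx]
      rw [this]
      exact mul_mem hp (Algebra.subset_adjoin ⟨some i, rfl⟩)
  rintro ⟨r, s⟩ -
  have : (⟨r, s⟩ : SQ k) = ⟨r, 0⟩ + ⟨s, 0⟩ * ww k := by
    apply QuadraticAlgebra.ext
    · simp [ww]
    · simp [ww]
  rw [this]
  exact add_mem (hC r) (mul_mem (hC s) (Algebra.subset_adjoin ⟨none, rfl⟩))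

instance : Algebra.FiniteType (GQ k 0) (SQ k) := by
  classical
  refine ⟨⟨Finset.univ.image (fun o : Option (Fin 4) => o.elim (ww k) (xx k)), ?_⟩⟩
  rw [Finset.coe_image, Finset.coe_univ, Set.image_univ]
  exact adjoin_top k

theorem coverQ (x : Proj (GQ k)) : ∃ i : Fin 4, x ∈ Proj.basicOpen (GQ k) (xx k i) := by
  by_contra hcon
  push Not at hcon
  have hcon' : ∀ i, xx k i ∈ x.asHomogeneousIdeal := by
    intro i
    by_contra h
    exact hcon i h
  have h := Proj.iSup_basicOpen_eq_top' (GQ k) (fun o : Option (Fin 4) => o.elim (ww k) (xx k))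
    (fun o => ⟨1, by cases o with
      | none => exact ww_mem k
      | some i => exact xx_mem k i⟩) (adjoin_top k)
  have hx : x ∈ (⊤ : (Proj (GQ k)).Opens) := trivial
  rw [← h, TopologicalSpace.Opens.mem_iSup] at hx
  obtain ⟨o, ho⟩ := hx
  cases o with
  | none =>
    apply ho
    have h1 : ww k * ww k ∈ x.asHomogeneousIdeal.toIdeal := by
      rw [ww_sq]
      exact add_mem (Ideal.mul_mem_right _ _ (hcon' 0)) (Ideal.mul_mem_right _ _ (hcon' 2))
    rcases x.isPrime.mem_or_mem h1 with h2 | h2 <;> exact h2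
  | some i => exact ho (hcon' i)

theorem bij0 : Function.Bijective (algebraMap k (GQ k 0)) := by
  constructor
  · intro a b h
    have h1 := congrArg (fun z : GQ k 0 => (z : SQ k).re) h
    exact C_injective _ _ h1
  · rintro ⟨⟨r, s⟩, hr, hs⟩
    obtain ⟨c, rfl⟩ := R4_zero k r hr
    have hs0 : s = 0 := by simpa [pre] using hs
    subst hs0
    exact ⟨c, rfl⟩

instance : IsIso (CommRingCat.ofHom (algebraMap k (GQ k 0))) :=
  (ConcreteCategory.isIso_iff_bijective _).2 (bij0 k)

instance properQ : IsProper (str (GQ k)) := by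
  unfold str
  infer_instance

instance : CompactSpace (Proj (GQ k)) := by
  have h : QuasiCompact (str (GQ k)) := inferInstance
  exact (quasiCompact_iff_compactSpace (f := str (GQ k))).1 h

theorem GQ_one (z : SQ k) (hz : z ∈ GQ k 1) : ∃ (c : Fin 4 → k) (e : k),
    z = ⟨∑ i, C (c i) * X i, C e⟩ := by
  obtain ⟨r, s⟩ := z
  obtain ⟨hr, hs⟩ := hz
  obtain ⟨c, hc⟩ := one_forms k r hr
  obtain ⟨e, he⟩ := R4_zero k s hs
  exact ⟨c, e, QuadraticAlgebra.ext hc he⟩

/-- The generic point of the divisor `x₀ = 0`. -/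
theorem exists_eta : ∃ η : Proj (GQ k), ∀ a : SQ k, a ∈ η.asHomogeneousIdeal ↔ xx k 0 ∣ a := by
  have hh : (Ideal.span {xx k 0}).IsHomogeneous (GQ k) := by
    apply Ideal.homogeneous_span
    intro x hx
    rw [Set.mem_singleton_iff] at hx
    rw [hx]
    exact ⟨1, xx_mem k 0⟩
  refine ⟨⟨⟨Ideal.span {xx k 0}, hh⟩,
    (Ideal.span_singleton_prime (xx0_prime k).ne_zero).2 (xx0_prime k), ?_⟩, ?_⟩
  · intro hle
    have h1 : xx k 1 ∈ Ideal.span {xx k 0} := by
      apply hle
      rw [HomogeneousIdeal.mem_irrelevant_iff, GradedRing.proj_apply]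
      exact DirectSum.decompose_of_mem_ne (GQ k) (xx_mem k 1) one_ne_zero
    rw [Ideal.mem_span_singleton, xx_dvd_iff] at h1
    have h2 : (X 0 : MvPolynomial (Fin 4) k) ∣ X 1 := h1.1
    rw [X_dvd_X] at h2
    exact absurd h2 (by decide)
  · intro a
    exact Ideal.mem_span_singleton

/-- The five coordinates. -/
def co5 (i : Fin 5) : SQ k := Fin.lastCases (ww k) (xx k) i

theorem co5_mem (i : Fin 5) : co5 k i ∈ GQ k 1 := by
  unfold co5
  induction i using Fin.lastCases with
  | last => rw [Fin.lastCases_last]; exact ww_mem k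
  | cast i => rw [Fin.lastCases_castSucc]; exact xx_mem k i

theorem co5_sum (c : Fin 5 → k) : ∑ i, algebraMap k (SQ k) (c i) * co5 k i =
    ⟨∑ i : Fin 4, C (c i.castSucc) * X i, C (c (Fin.last 4))⟩ := by
  rw [Fin.sum_univ_castSucc]
  have h1 : ∀ i : Fin 4, co5 k i.castSucc = xx k i := fun i => by
    unfold co5; rw [Fin.lastCases_castSucc]
  have h2 : co5 k (Fin.last 4) = ww k := by
    unfold co5; rw [Fin.lastCases_last]
  have h3 : ∀ a : k, algebraMap k (SQ k) a = ⟨C a, 0⟩ := fun a => rfl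
  simp only [h1, h2, h3]
  apply QuadraticAlgebra.ext
  · simp [xx, ww, Fin.sum_univ_four]
  · simp [xx, ww, Fin.sum_univ_four]

theorem has5 : Has5 (str (GQ k)) := by
  obtain ⟨η, hη⟩ := exists_eta k
  have hF := xx_mem k 0
  have hFp := xx0_prime k
  have hyF : ¬ xx k 0 ∣ xx k 1 := by
    rw [xx_dvd_iff]
    rintro ⟨h, -⟩
    have h2 : (X 0 : MvPolynomial (Fin 4) k) ∣ X 1 := h
    rw [X_dvd_X] at h2
    exact absurd h2 (by decide)
  have key := fun f => SP_iff (GQ k) one_pos hF hFp (xx_mem k 1) η hη hyF f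
  obtain ⟨g0, hg0, hgen⟩ := exists_gen (GQ k) η
  have hg0F : g0 ∈ Proj.basicOpen (GQ k) (xx k 0) := by
    rw [Proj.mem_basicOpen, hg0]
    intro h
    have h' : xx k 0 ∈ (⊥ : Ideal (SQ k)) := h
    exact hFp.ne_zero (Ideal.mem_bot.1 h')
  have hF0 : emb (SQ k) (xx k 0) ≠ 0 := emb_ne hFp.ne_zero
  have hsum : ∀ c : Fin 5 → k, ev (GQ k) _ g0 hg0F
      (∑ i, baseHom (str (GQ k)) _ (c i) *
        frac (GQ k) (Proj.basicOpen (GQ k) (xx k 0)) 1 (co5 k i) (xx k 0) (co5_mem k i) hF le_rfl) =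
        emb (SQ k) (∑ i, algebraMap k (SQ k) (c i) * co5 k i) / emb _ (xx k 0) := by
    intro c
    refine (map_sum (ev (GQ k) _ g0 hg0F) _ _).trans ?_
    rw [map_sum, Finset.sum_div]
    refine Finset.sum_congr rfl fun i _ => ?_
    refine (map_mul (ev (GQ k) _ g0 hg0F) _ _).trans ?_
    refine (congrArg₂ (· * ·) (ev_base (GQ k) _ g0 hg0F (c i))
      (ev_frc (GQ k) _ 1 (co5 k i) (xx k 0) (co5_mem k i) hF le_rfl g0 hg0F)).trans ?_
    rw [map_mul, mul_div_assoc]
  refine ⟨Proj.basicOpen (GQ k) (xx k 0), η, ?_, ?_,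
    ⟨frac (GQ k) _ 1 (xx k 1) (xx k 0) (xx_mem k 1) hF le_rfl, ?_⟩,
    fun i => frac (GQ k) _ 1 (co5 k i) (xx k 0) (co5_mem k i) hF le_rfl, ?_, ?_, ?_⟩
  · intro h
    exact h ((hη _).2 dvd_rfl)
  · intro x hx V hxV
    have hxF : xx k 0 ∈ x.asHomogeneousIdeal := by
      by_contra h
      exact hx h
    obtain ⟨W, ⟨g, rfl⟩, hxg, hgV⟩ := (TopologicalSpace.Opens.isBasis_iff_nbhd.1
      (Proj.isBasis_basicOpen (GQ k))) hxV
    apply hgV
    intro hg
    apply hxg
    exact Ideal.mem_of_dvd x.asHomogeneousIdeal.toIdeal ((hη g).1 hg) hxF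
  · intro c hc
    have h1 := congrArg (ev (GQ k) _ g0 hg0F) hc
    have h2 := (ev_frc (GQ k) _ 1 (xx k 1) (xx k 0) (xx_mem k 1) hF le_rfl g0 hg0F).symm.trans
      (h1.trans (ev_base (GQ k) _ g0 hg0F c))
    rw [div_eq_iff hF0, ← map_mul, emb_inj] at h2
    exact hyF ⟨_, h2.trans (mul_comm _ _)⟩
  · intro i
    exact (key _).2 ⟨co5 k i, co5_mem k i, fun x hx => ev_frc (GQ k) _ 1 _ _ _ hF le_rfl x hx⟩
  · intro c hc i
    have h1 := congrArg (ev (GQ k) _ g0 hg0F) hc
    have h2 := (hsum c).symm.trans (h1.trans (map_zero (ev (GQ k) _ g0 hg0F)))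
    rw [div_eq_zero_iff, or_iff_left hF0, ← map_zero (emb (SQ k)), emb_inj, co5_sum] at h2
    have hre : ∑ i : Fin 4, C (c i.castSucc) * X i = (0 : MvPolynomial (Fin 4) k) :=
      congrArg QuadraticAlgebra.re h2
    have him : C (c (Fin.last 4)) = (0 : MvPolynomial (Fin 4) k) :=
      congrArg QuadraticAlgebra.im h2
    induction i using Fin.lastCases with
    | last => exact C_injective _ _ (him.trans (map_zero C).symm)
    | cast i =>
      have h3 := congrArg (coeff (Finsupp.single i 1)) hre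
      rw [coeff_sum, Finset.sum_eq_single i] at h3
      · simpa using h3
      · intro j _ hj
        rw [coeff_C_mul, coeff_X', if_neg, mul_zero]
        intro h
        exact hj (Finsupp.single_left_injective one_ne_zero h)
      · intro h
        exact absurd (Finset.mem_univ i) h
  · intro f hf
    obtain ⟨G, hG, hGev⟩ := (key f).1 hf
    obtain ⟨c, e, hce⟩ := GQ_one k G hG
    refine ⟨fun i => Fin.lastCases (motive := fun _ => k) e c i, ?_⟩
    apply ev_inj (GQ k) _ g0 hg0F
    refine (hGev g0 hg0F).trans ?_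
    refine Eq.trans ?_ (hsum (fun i => Fin.lastCases (motive := fun _ => k) e c i)).symm
    rw [co5_sum, hce]
    simp only [Fin.lastCases_castSucc, Fin.lastCases_last]

end

end Pool.Agent.R866.PJ
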