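import Pool.Agent.R866.PJ.Quad3

set_option autoImplicit false
set_option linter.all false

/-! Affine charts of the quadric. -/

open AlgebraicGeometry CategoryTheory MvPolynomial HomogeneousLocalization

namespace Pool.Agent.R866.PJ

open Pool.Agent.Helper922.VS

noncomputable section

variable (k : Type) [Field k]

attribute [local instance] MvPolynomial.gradedAlgebra

abbrev T3 : Type := MvPolynomial (Fin 3) k

def sg : Fin 4 → Fin 4 := ![1, 0, 3, 2]
def l1 : Fin 4 → Fin 4 := ![2, 2, 0, 0]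
def l2 : Fin 4 → Fin 4 := ![3, 3, 1, 1]

theorem ww_sq' (i : Fin 4) : ww k * ww k = xx k i * xx k (sg i) + xx k (l1 i) * xx k (l2 i) := by
  rw [ww_sq]
  fin_cases i
  · rfl
  · simp [sg, l1, l2]; ring
  · simp [sg, l1, l2]; ring
  · simp [sg, l1, l2]; ring

theorem four (i j : Fin 4) : j = i ∨ j = sg i ∨ j = l1 i ∨ j = l2 i := by
  revert i j; decide

theorem ne1 (i : Fin 4) : sg i ≠ i ∧ l1 i ≠ i ∧ l2 i ≠ i ∧ l1 i ≠ sg i ∧ l2 i ≠ sg i ∧
    l2 i ≠ l1 i := by
  revert i; decide

/-- Dehomogenised coordinates. -/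
def va (i j : Fin 4) : T3 k :=
  if j = i then 1 else if j = sg i then X 0 * X 0 - X 1 * X 2 else if j = l1 i then X 1 else X 2

theorem va_self (i : Fin 4) : va k i i = 1 := if_pos rfl
theorem va_sg (i : Fin 4) : va k i (sg i) = X 0 * X 0 - X 1 * X 2 := by
  rw [va, if_neg (ne1 i).1, if_pos rfl]
theorem va_l1 (i : Fin 4) : va k i (l1 i) = X 1 := by
  rw [va, if_neg (ne1 i).2.1, if_neg (ne1 i).2.2.2.1, if_pos rfl]
theorem va_l2 (i : Fin 4) : va k i (l2 i) = X 2 := by
  rw [va, if_neg (ne1 i).2.2.1, if_neg (ne1 i).2.2.2.2.1, if_neg (ne1 i).2.2.2.2.2]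

theorem qf_eq (i : Fin 4) : qf k = X i * X (sg i) + X (l1 i) * X (l2 i) := by
  fin_cases i
  · rfl
  · simp [sg, l1, l2]; ring
  · simp [sg, l1, l2]; ring
  · simp [sg, l1, l2]; ring

def th (i : Fin 4) : MvPolynomial (Fin 4) k →ₐ[k] T3 k := aeval (va k i)

theorem th_qf (i : Fin 4) : th k i (qf k) = X 0 * X 0 := by
  rw [qf_eq k i, map_add, map_mul, map_mul, th, aeval_X, aeval_X, aeval_X, aeval_X, va_self,
    va_sg, va_l1, va_l2]
  ring

/-- Dehomogenisation. -/
def deh (i : Fin 4) : SQ k →+* T3 k where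
  toFun z := th k i z.re + th k i z.im * X 0
  map_one' := by
    rw [QuadraticAlgebra.re_one, QuadraticAlgebra.im_one, map_one, map_zero, zero_mul, add_zero]
  map_zero' := by
    rw [QuadraticAlgebra.re_zero, QuadraticAlgebra.im_zero, map_zero, zero_mul, add_zero]
  map_add' z w := by
    rw [QuadraticAlgebra.re_add, QuadraticAlgebra.im_add, map_add, map_add]
    ring
  map_mul' z w := by
    rw [QuadraticAlgebra.re_mul, QuadraticAlgebra.im_mul, zero_mul, zero_mul, add_zero]
    rw [map_add, map_add, map_mul, map_mul (th k i) (qf k * z.im), map_mul (th k i) (qf k),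
      map_mul, map_mul, th_qf]
    ring

theorem deh_apply (i : Fin 4) (z : SQ k) : deh k i z = th k i z.re + th k i z.im * X 0 := rfl

theorem deh_xx (i j : Fin 4) : deh k i (xx k j) = va k i j := by
  rw [deh_apply]
  simp [xx, th]

theorem deh_ww (i : Fin 4) : deh k i (ww k) = X 0 := by
  rw [deh_apply]
  simp [ww, th]

theorem deh_alg (i : Fin 4) (a : k) : deh k i (algebraMap k (SQ k) a) = C a := by
  have h : algebraMap k (SQ k) a = ⟨C a, 0⟩ := rfl
  rw [deh_apply, h]
  simp [th]

theorem deh_unit (i : Fin 4) : IsUnit (deh k i (xx k i)) := by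
  rw [deh_xx, va_self]
  exact isUnit_one

def toPoly (i : Fin 4) : Away (GQ k) (xx k i) →+* T3 k :=
  (IsLocalization.Away.lift (S := Localization.Away (xx k i)) (xx k i) (g := deh k i)
    (deh_unit k i)).comp (algebraMap (Away (GQ k) (xx k i)) (Localization.Away (xx k i)))

theorem toPoly_mk (i : Fin 4) (n : ℕ) (f : SQ k) (hf : f ∈ GQ k (n • 1)) :
    toPoly k i (Away.mk (GQ k) (xx_mem k i) n f hf) = deh k i f := by
  have h0 : algebraMap (Away (GQ k) (xx k i)) (Localization.Away (xx k i))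
      (Away.mk (GQ k) (xx_mem k i) n f hf) =
      Localization.mk f (⟨xx k i ^ n, n, rfl⟩ : Submonoid.powers (xx k i)) :=
    Away.val_mk (GQ k) n (xx_mem k i) f hf
  rw [toPoly, RingHom.comp_apply, h0]
  have h1 : Localization.mk f (⟨xx k i ^ n, n, rfl⟩ : Submonoid.powers (xx k i)) *
     algebraMap (SQ k) (Localization.Away (xx k i)) (xx k i ^ n) =
      algebraMap (SQ k) (Localization.Away (xx k i)) f := by
    rw [Localization.mk_eq_mk']
    exact IsLocalization.mk'_spec _ f (⟨xx k i ^ n, n, rfl⟩ : Submonoid.powers (xx k i))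
  have h2 := congrArg (IsLocalization.Away.lift (S := Localization.Away (xx k i))
    (xx k i) (g := deh k i) (deh_unit k i)) h1
  rw [map_mul, IsLocalization.Away.lift_eq, IsLocalization.Away.lift_eq, map_pow] at h2
  have h3 : (deh k i (xx k i)) ^ n = 1 := by rw [deh_xx, va_self, one_pow]
  exact (mul_one _).symm.trans ((congrArg (_ * ·) h3.symm).trans h2)

theorem hom_smul {K : Type*} [CommRing K] (φ : k →+* K) (f : MvPolynomial (Fin 4) k) (n : ℕ)
    (hf : f ∈ homogeneousSubmodule (Fin 4) k n) (c : K) (v : Fin 4 → K) :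
    eval₂ φ (fun j => c * v j) f = c ^ n * eval₂ φ v f := by
  rw [MvPolynomial.eval₂_eq', MvPolynomial.eval₂_eq', Finset.mul_sum]
  refine Finset.sum_congr rfl fun m hm => ?_
  have h1 : ∑ j, m j = n := by
    have := (MvPolynomial.mem_homogeneousSubmodule n f).1 hf (MvPolynomial.mem_support_iff.1 hm)
    rw [← this, Finsupp.weight_apply, Finsupp.sum_fintype _ _ (by simp)]
    simp
  simp only [mul_pow, Finset.prod_mul_distrib, Finset.prod_pow_eq_pow_sum, h1]
  ring

/-- Evaluation in the fraction field. -/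
def psi (i : Fin 4) : T3 k →+* Fr (SQ k) :=
  eval₂Hom ((emb (SQ k)).comp (algebraMap k (SQ k)))
    ![emb (SQ k) (ww k) / emb (SQ k) (xx k i), emb (SQ k) (xx k (l1 i)) / emb (SQ k) (xx k i),
      emb (SQ k) (xx k (l2 i)) / emb (SQ k) (xx k i)]

theorem xx_ne (i : Fin 4) : xx k i ≠ 0 := by
  intro h
  exact X_ne_zero (R := k) i (congrArg QuadraticAlgebra.re h)

theorem psi_va (i j : Fin 4) : psi k i (va k i j) = emb (SQ k) (xx k j) / emb (SQ k) (xx k i) := by
  have hu : emb (SQ k) (xx k i) ≠ 0 := emb_ne (xx_ne k i)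
  rcases four i j with h | h | h | h
  · subst h
    rw [va_self, map_one, div_self hu]
  · subst h
    rw [va_sg, psi]
    have h1 := congrArg (emb (SQ k)) (ww_sq' k i)
    rw [map_mul, map_add, map_mul, map_mul] at h1
    simp only [map_sub, map_mul, coe_eval₂Hom, eval₂_X, Matrix.cons_val_zero, Matrix.cons_val_one,
      Matrix.cons_val]
    field_simp
    linear_combination h1
  · subst h
    rw [va_l1, psi]
    simp
  · subst h
    rw [va_l2, psi]
    simp

theorem psi_th (i : Fin 4) (n : ℕ) (r : MvPolynomial (Fin 4) k)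
    (hr : r ∈ homogeneousSubmodule (Fin 4) k n) :
    emb (SQ k) (xx k i) ^ n * psi k i (th k i r) = emb (SQ k) ⟨r, 0⟩ := by
  have hu : emb (SQ k) (xx k i) ≠ 0 := emb_ne (xx_ne k i)
  have h1 : psi k i (th k i r) = eval₂ ((emb (SQ k)).comp (algebraMap k (SQ k)))
      (fun j => emb (SQ k) (xx k j) / emb (SQ k) (xx k i)) r := by
    have h2 : (psi k i).comp (th k i).toRingHom =
        eval₂Hom ((emb (SQ k)).comp (algebraMap k (SQ k)))
          (fun j => emb (SQ k) (xx k j) / emb (SQ k) (xx k i)) := by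
      apply MvPolynomial.ringHom_ext
      · intro a
        simp [th, psi]
      · intro j
        have := psi_va k i j
        simpa [th] using this
    exact congrArg (fun φ : MvPolynomial (Fin 4) k →+* Fr (SQ k) => φ r) h2
  rw [h1, ← hom_smul k _ r n hr]
  have h3 : (fun j => emb (SQ k) (xx k i) * (emb (SQ k) (xx k j) / emb (SQ k) (xx k i))) =
      fun j => emb (SQ k) (xx k j) := by
    funext j
    rw [mul_div_cancel₀ _ hu]
  rw [h3]
  let ιR : MvPolynomial (Fin 4) k →+* Fr (SQ k) :=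
    (emb (SQ k)).comp (algebraMap (MvPolynomial (Fin 4) k) (SQ k))
  have h4 : eval₂Hom ((emb (SQ k)).comp (algebraMap k (SQ k))) (fun j => emb (SQ k) (xx k j)) = ιR := by
    apply MvPolynomial.ringHom_ext
    · intro a
      simp [ιR]
      rfl
    · intro j
      simp [ιR]
      rfl
  exact congrArg (fun φ : MvPolynomial (Fin 4) k →+* Fr (SQ k) => φ r) h4

theorem psi_deh (i : Fin 4) (n : ℕ) (f : SQ k) (hf : f ∈ GQ k n) :
    emb (SQ k) (xx k i) ^ n * psi k i (deh k i f) = emb (SQ k) f := by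
  have hu : emb (SQ k) (xx k i) ≠ 0 := emb_ne (xx_ne k i)
  obtain ⟨r, s⟩ := f
  obtain ⟨hr, hs⟩ := hf
  rw [deh_apply, map_add, mul_add, map_mul]
  simp only at hr hs ⊢
  rw [psi_th k i n r hr]
  have h1 : (⟨r, s⟩ : SQ k) = ⟨r, 0⟩ + ⟨s, 0⟩ * ww k := by
    apply QuadraticAlgebra.ext
    · simp [ww]
    · simp [ww]
  rw [h1, map_add, map_mul]
  congr 1
  have h2 : psi k i (X 0) = emb (SQ k) (ww k) / emb (SQ k) (xx k i) := by simp [psi]
  rw [h2]
  cases n with
  | zero =>
    have hs0 : s = 0 := by simpa [pre] using hs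
    subst hs0
    have h3 : (⟨0, 0⟩ : SQ k) = 0 := rfl
    rw [h3, map_zero, map_zero, map_zero]
    ring
  | succ m =>
    have h3 := psi_th k i m s hs
    rw [← h3, pow_succ]
    field_simp

theorem toPoly_bijective (i : Fin 4) : Function.Bijective (toPoly k i) := by
  constructor
  · rw [injective_iff_map_eq_zero]
    intro z hz
    obtain ⟨n, f, hf, rfl⟩ := Away.mk_surjective (GQ k) (xx_mem k i) z
    rw [toPoly_mk] at hz
    have h1 := psi_deh k i (n • 1) f hf
    rw [hz, map_zero, mul_zero] at h1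
    have hf0 : f = 0 := emb_inj.1 (h1.symm.trans (map_zero _).symm)
    subst hf0
    apply HomogeneousLocalization.val_injective
    rw [Away.val_mk]
    simp [Localization.mk_zero]
  · have hX : ∀ j : Fin 3, ∃ z, toPoly k i z = X j := by
      intro j
      fin_cases j
      · exact ⟨Away.mk (GQ k) (xx_mem k i) 1 (ww k) (by simpa using ww_mem k),
          (toPoly_mk k i 1 _ _).trans (deh_ww k i)⟩
      · exact ⟨Away.mk (GQ k) (xx_mem k i) 1 (xx k (l1 i)) (by simpa using xx_mem k (l1 i)),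
          (toPoly_mk k i 1 _ _).trans ((deh_xx k i _).trans (va_l1 k i))⟩
      · exact ⟨Away.mk (GQ k) (xx_mem k i) 1 (xx k (l2 i)) (by simpa using xx_mem k (l2 i)),
          (toPoly_mk k i 1 _ _).trans ((deh_xx k i _).trans (va_l2 k i))⟩
    intro p
    induction p using MvPolynomial.induction_on with
    | C a =>
      refine ⟨Away.mk (GQ k) (xx_mem k i) 0 (algebraMap k (SQ k) a) ?_, ?_⟩
      · exact ⟨isHomogeneous_C _ _, zero_mem _⟩
      · exact (toPoly_mk k i 0 _ _).trans (deh_alg k i a)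
    | add p q hp hq =>
      obtain ⟨a, rfl⟩ := hp
      obtain ⟨b, rfl⟩ := hq
      exact ⟨a + b, map_add _ _ _⟩
    | mul_X p j hp =>
      obtain ⟨a, rfl⟩ := hp
      obtain ⟨b, hb⟩ := hX j
      exact ⟨a * b, by rw [map_mul, hb]⟩

end

end Pool.Agent.R866.PJ
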