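import Pool.Agent.R866.PJ.Quad4

set_option autoImplicit false
set_option linter.all false

/-! The quadric is a smooth projective threefold. -/

open AlgebraicGeometry CategoryTheory MvPolynomial HomogeneousLocalization

namespace Pool.Agent.R866.PJ

open Pool.Agent.Helper922.VS

noncomputable section

variable (k : Type) [Field k]

attribute [local instance] MvPolynomial.gradedAlgebra

theorem smooth3 : Algebra.IsStandardSmoothOfRelativeDimension 3 k (MvPolynomial (Fin 3) k) := by
  have : Algebra.IsStandardSmooth k (MvPolynomial (Fin 3) k) := by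
    apply Algebra.IsStandardSmooth.of_basis_kaehlerDifferential
      (KaehlerDifferential.mvPolynomialBasis k (Fin 3))
    rintro _ ⟨i, rfl⟩
    exact ⟨X i, by rw [KaehlerDifferential.mvPolynomialBasis_apply]⟩
  rw [Algebra.IsStandardSmoothOfRelativeDimension.iff_of_isStandardSmooth,
    rank_eq_card_basis (KaehlerDifferential.mvPolynomialBasis k (Fin 3))]
  simp

/-- The structure map of the chart. -/
def base (i : Fin 4) : k →+* Away (GQ k) (xx k i) :=
  (fromZeroRingHom (GQ k) (Submonoid.powers (xx k i))).comp (algebraMap k (GQ k 0))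

theorem toPoly_base (i : Fin 4) : (toPoly k i).comp (base k i) = algebraMap k (T3 k) := by
  apply RingHom.ext
  intro a
  have h1 : algebraMap (Away (GQ k) (xx k i)) (Localization.Away (xx k i)) (base k i a) =
      algebraMap (SQ k) (Localization.Away (xx k i)) (algebraMap k (SQ k) a) := by
    rw [← Localization.mk_one_eq_algebraMap]
    rfl
  rw [RingHom.comp_apply, toPoly, RingHom.comp_apply, h1, IsLocalization.Away.lift_eq]
  exact deh_alg k i a

theorem smoothBase (i : Fin 4) : (base k i).IsStandardSmoothOfRelativeDimension 3 := by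
  let e : Away (GQ k) (xx k i) ≃+* T3 k := RingEquiv.ofBijective (toPoly k i) (toPoly_bijective k i)
  have h1 : base k i = (e.symm : T3 k →+* Away (GQ k) (xx k i)).comp (algebraMap k (T3 k)) := by
    rw [← toPoly_base k i]
    apply RingHom.ext
    intro a
    exact (e.symm_apply_apply _).symm
  have h2 : (algebraMap k (T3 k)).IsStandardSmoothOfRelativeDimension 3 := by
    rw [RingHom.isStandardSmoothOfRelativeDimension_algebraMap]
    exact smooth3 k
  rw [h1]
  exact (RingHom.IsStandardSmoothOfRelativeDimension.equiv e.symm).comp h2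

theorem chart_str (i : Fin 4) : Proj.awayι (GQ k) (xx k i) (xx_mem k i) one_pos ≫ str (GQ k) =
    Spec.map (CommRingCat.ofHom (base k i)) := by
  rw [str, Proj.awayι_toSpecZero_assoc, ← Spec.map_comp]
  rfl

theorem iSup_top : ⨆ i : Fin 4, Proj.basicOpen (GQ k) (xx k i) = ⊤ := by
  rw [eq_top_iff]
  intro x _
  obtain ⟨i, hi⟩ := coverQ k x
  exact TopologicalSpace.Opens.mem_iSup.2 ⟨i, hi⟩

/-- Smoothness of relative dimension three as a morphism property. -/
def SmP : MorphismProperty Scheme.{0} := fun _ _ f => SmoothOfRelativeDimension 3 f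

instance : HasRingHomProperty SmP
    (RingHom.Locally (RingHom.IsStandardSmoothOfRelativeDimension 3)) :=
  (inferInstance : HasRingHomProperty (@SmoothOfRelativeDimension.{0} 3)
    (RingHom.Locally (RingHom.IsStandardSmoothOfRelativeDimension 3)))

theorem smoothQ : SmoothOfRelativeDimension 3 (str (GQ k)) := by
  change SmP (str (GQ k))
  rw [IsZariskiLocalAtSource.iff_of_iSup_eq_top (P := SmP) _ (iSup_top k)]
  intro i
  rw [← MorphismProperty.cancel_left_of_respectsIso (P := SmP)
    (Proj.basicOpenIsoSpec (GQ k) (xx k i) (xx_mem k i) one_pos).inv, ← Category.assoc,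
    ← Proj.awayι, chart_str, HasRingHomProperty.Spec_iff (P := SmP)]
  exact RingHom.locally_of RingHom.isStandardSmoothOfRelativeDimension_respectsIso _
    (smoothBase k i)

instance (i : Fin 4) : IsIntegral (Spec (CommRingCat.of (Away (GQ k) (xx k i)))) := by
  have : IsDomain (Away (GQ k) (xx k i)) :=
    (RingEquiv.ofBijective (toPoly k i) (toPoly_bijective k i)).toMulEquiv.isDomain (T3 k)
  infer_instance

end

end Pool.Agent.R866.PJ
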