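import Pool.Agent.Helper922.StmtDefs

set_option autoImplicit false

/-! Vector fields on schemes over a field, and morphisms from line sheaves to the tangent sheaf. -/

open AlgebraicGeometry CategoryTheory

namespace Pool.Agent.R866.PJ

open Pool.Agent.Helper922.VS

noncomputable section

/-- A section over `U` of the tangent sheaf of the `k`-scheme `X`: a `k`-derivation of the
structure sheaf of `U`, that is, `k`-derivations of the rings of functions on all open subsets `W`
of `U`, compatible with restriction. -/
structure VectorField {k : Type} [Field k] {X : Scheme.{0}} (p : X ⟶ Spec (CommRingCat.of k))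
    (U : X.Opens) where
  D : ∀ W : X.Opens, W ≤ U → Reg X W → Reg X W
  map_add : ∀ (W : X.Opens) (h : W ≤ U) (f g : Reg X W), D W h (f + g) = D W h f + D W h g
  leibniz : ∀ (W : X.Opens) (h : W ≤ U) (f g : Reg X W), D W h (f * g) = f * D W h g + g * D W h f
  map_const : ∀ (W : X.Opens) (h : W ≤ U) (c : k), D W h (baseHom p W c) = 0
  map_res : ∀ (W W' : X.Opens) (h : W ≤ U) (h' : W' ≤ W) (f : Reg X W),
    rs h' (D W h f) = D W' (h'.trans h) (rs h' f)

/-- A morphism of `O_X`-modules from the line sheaf `L` to the tangent sheaf of `X`: it is given by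
the images `v i` of the frames `e i` of `L` over `L.U i`; as `e j = g i j * e i` on overlaps, the
vector fields satisfy `v j = g i j * v i`. -/
structure MapToTangent {k : Type} [Field k] {X : Scheme.{0}} (p : X ⟶ Spec (CommRingCat.of k))
    (L : LineSheaf X) where
  v : ∀ i : L.ι, VectorField p (L.U i)
  compat : ∀ (i j : L.ι) (W : X.Opens) (hi : W ≤ L.U i) (hj : W ≤ L.U j) (f : Reg X W),
    (v j).D W hj f = rs (le_inf hi hj) (L.g i j) * (v i).D W hi f

/-- The morphism is nonzero. -/
def MapToTangent.Nonzero {k : Type} [Field k] {X : Scheme.{0}} {p : X ⟶ Spec (CommRingCat.of k)}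
    {L : LineSheaf X} (φ : MapToTangent p L) : Prop :=
  ∃ (i : L.ι) (W : X.Opens) (h : W ≤ L.U i) (f : Reg X W), (φ.v i).D W h f ≠ 0

/-- The morphism vanishes at no point: at every point `x` the image of a frame of `L` takes some
function near `x` to a function that is invertible at `x`. For a smooth variety this says that `L`
is a subbundle of the tangent bundle. -/
def MapToTangent.NowhereZero {k : Type} [Field k] {X : Scheme.{0}}
    {p : X ⟶ Spec (CommRingCat.of k)} {L : LineSheaf X} (φ : MapToTangent p L) : Prop :=
  ∀ x : X, ∃ (i : L.ι) (W : X.Opens) (h : W ≤ L.U i) (f : Reg X W), x ∈ nz ((φ.v i).D W h f)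

/-- Projective space of dimension `n` over `k`. -/
abbrev PSpace (n : ℕ) (k : Type) [Field k] : Scheme.{0} :=
  letI := MvPolynomial.gradedAlgebra (σ := Fin (n + 1)) (R := k)
  Proj (MvPolynomial.homogeneousSubmodule (Fin (n + 1)) k)

/-- The structure morphism of projective space. -/
def PSpace.str (n : ℕ) (k : Type) [Field k] : PSpace n k ⟶ Spec (CommRingCat.of k) :=
  letI := MvPolynomial.gradedAlgebra (σ := Fin (n + 1)) (R := k)
  Proj.toSpecZero (MvPolynomial.homogeneousSubmodule (Fin (n + 1)) k) ≫
    Spec.map (CommRingCat.ofHom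
      (algebraMap k (MvPolynomial.homogeneousSubmodule (Fin (n + 1)) k 0)))

end

end Pool.Agent.R866.PJ
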