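import Pool.Agent.R866.PJ.Der
import Pool.Agent.R866.PJ.Stmt

set_option autoImplicit false
set_option linter.all false

/-! The structure morphism of `Proj`, the line sheaf `O(1)`, and the morphism `O(1) → T` given by a
derivation of degree `-1`. -/

open AlgebraicGeometry CategoryTheory HomogeneousLocalization

namespace Pool.Agent.R866.PJ

open Pool.Agent.Helper922.VS

noncomputable section

section zero

variable {k : Type} [Field k] {A : Type} [CommRing A] [Algebra k A]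
  (𝒜 : ℕ → Submodule k A) [GradedAlgebra 𝒜]

theorem ι_appLE {Y : Scheme.{0}} (V : Y.Opens) (h : ⊤ ≤ V.ι ⁻¹ᵁ V) :
    V.ι.appLE V ⊤ h = V.topIso.inv := by
  simp [Scheme.Hom.appLE]
  exact (Y.presheaf.map_comp _ _).symm

theorem pull_comp_ι {Y Z : Scheme.{0}} (V : Y.Opens) (g : Z ⟶ V.toScheme)
    (h : ⊤ ≤ (g ≫ V.ι) ⁻¹ᵁ V) : V.topIso.inv ≫ g.appTop = (g ≫ V.ι).appLE V ⊤ h := by
  have h1 : (⊤ : V.toScheme.Opens) ≤ V.ι ⁻¹ᵁ V := by simp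
  have h2 : (⊤ : Z.Opens) ≤ g ⁻¹ᵁ ⊤ := le_top
  rw [← Scheme.Hom.appLE_comp_appLE g V.ι V ⊤ ⊤ h1 h2, ι_appLE]
  congr 1
  exact (Scheme.Hom.appLE_eq_app g).symm

theorem zero_app : (Scheme.ΓSpecIso (CommRingCat.of (𝒜 0))).inv ≫ (Proj.toSpecZero 𝒜).appTop =
   CommRingCat.ofHom (fromZeroRingHom 𝒜 _) ≫ Proj.awayToSection 𝒜 1 ≫
    (Proj 𝒜).presheaf.map (homOfLE (Proj.basicOpen_one 𝒜).ge).op := by
  let j : Proj 𝒜 ⟶ (Proj.basicOpen 𝒜 1).toScheme :=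
    (Scheme.topIso _).inv ≫ (Scheme.isoOfEq _ (Proj.basicOpen_one _)).inv
  have hj : j ≫ (Proj.basicOpen 𝒜 1).ι = 𝟙 _ := by
    simp [j, Category.assoc]
  have h0 : Proj.toSpecZero 𝒜 = j ≫ (Proj.basicOpenToSpec 𝒜 1 ≫
      Spec.map (CommRingCat.ofHom (fromZeroRingHom 𝒜 _))) := by
    simp only [j, Category.assoc]
    rfl
  have h1 := Proj.basicOpenToSpec_app_top 𝒜 1
  have h2 : (⊤ : (Proj 𝒜).Opens) ≤ (j ≫ (Proj.basicOpen 𝒜 1).ι) ⁻¹ᵁ (Proj.basicOpen 𝒜 1) := by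
    rw [hj]
    exact (Proj.basicOpen_one 𝒜).ge
  have h3 := pull_comp_ι (Proj.basicOpen 𝒜 1) j h2
  rw [h0]
  simp only [Scheme.Hom.comp_appTop, Category.assoc]
  have h4 : (Proj.basicOpenToSpec 𝒜 1).appTop = (Scheme.ΓSpecIso _).hom ≫ Proj.awayToSection 𝒜 1 ≫
      (Proj.basicOpen 𝒜 1).topIso.inv := h1
  rw [h4]
  simp only [Category.assoc, h3]
  rw [← Category.assoc, ← Category.assoc, ← Scheme.ΓSpecIso_inv_naturality]
  simp only [Category.assoc, Iso.inv_hom_id_assoc]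
  congr 2
  simp only [hj]
  rw [Scheme.Hom.appLE]
  simp
  exact Category.id_comp _

/-- The structure morphism. -/
def str : Proj 𝒜 ⟶ Spec (CommRingCat.of k) :=
  Proj.toSpecZero 𝒜 ≫ Spec.map (CommRingCat.ofHom (algebraMap k (𝒜 0)))

theorem zero_app' : (Scheme.ΓSpecIso (CommRingCat.of k)).inv ≫ (str 𝒜).appTop =
   CommRingCat.ofHom ((fromZeroRingHom 𝒜 _).comp (algebraMap k (𝒜 0))) ≫ Proj.awayToSection 𝒜 1 ≫
    (Proj 𝒜).presheaf.map (homOfLE (Proj.basicOpen_one 𝒜).ge).op := by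
  rw [str, Scheme.Hom.comp_appTop, ← Category.assoc, ← Scheme.ΓSpecIso_inv_naturality,
    Category.assoc, zero_app, CommRingCat.ofHom_comp, Category.assoc]

end zero

variable {k : Type} [Field k] {A : Type} [CommRing A] [Algebra k A]
  (𝒜 : ℕ → Submodule k A) [GradedAlgebra 𝒜] [IsDomain A]

theorem ev_away (f : A) (c : NumDenSameDeg 𝒜 (Submonoid.powers f)) (x : Proj 𝒜)
    (hx : x ∈ Proj.basicOpen 𝒜 f) :
    ev 𝒜 _ x hx (Proj.awayToSection 𝒜 f (HomogeneousLocalization.mk c)) =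
      emb A (c.num : A) / emb A (c.den : A) :=
  kap_mk 𝒜 x ⟨c.deg, c.num, c.den, (Submonoid.powers_le.mpr hx) c.den_mem⟩

theorem ev_rs {U V : (Proj 𝒜).Opens} (h : V ≤ U) (x : Proj 𝒜) (hx : x ∈ V) (s : Reg (Proj 𝒜) U) :
    ev 𝒜 V x hx (rs h s) = ev 𝒜 U x (h hx) s := rfl

theorem ev_base (U : (Proj 𝒜).Opens) (x : Proj 𝒜) (hx : x ∈ U) (c : k) :
    ev 𝒜 U x hx (baseHom (str 𝒜) U c) = emb A (algebraMap k A c) := by
  have h1 : baseHom (str 𝒜) U c = rs le_top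
      (((Scheme.ΓSpecIso (CommRingCat.of k)).inv ≫ (str 𝒜).appTop).hom c) := by
    rfl
  rw [h1, zero_app']
  refine Eq.trans ?_ (Eq.trans (ev_away 𝒜 1 ⟨0, algebraMap k (𝒜 0) c, 1, one_mem _⟩ x (by
    rw [Proj.basicOpen_one]; trivial)) ?_)
  · rfl
  · simp

/-- The vector field given by a homogeneous derivation of degree zero. -/
def vf (E : Derivation k A A) (hE : ∀ n, ∀ a ∈ 𝒜 n, E a ∈ 𝒜 n) (U : (Proj 𝒜).Opens) :
    VectorField (str 𝒜) U where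
  D W _ f := DS 𝒜 E hE W f
  map_add W _ f g := by
    apply sec_ext 𝒜
    intro x hx
    refine (ev_DS 𝒜 E hE W x hx (f + g)).trans ?_
    refine (congrArg (DF E) (map_add (ev 𝒜 W x hx) f g)).trans ?_
    refine Eq.trans ?_ (map_add (ev 𝒜 W x hx) _ _).symm
    rw [DF_add]
    exact congrArg₂ (· + ·) (ev_DS 𝒜 E hE W x hx f).symm (ev_DS 𝒜 E hE W x hx g).symm
  leibniz W _ f g := by
    apply sec_ext 𝒜
    intro x hx
    refine (ev_DS 𝒜 E hE W x hx (f * g)).trans ?_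
    refine (congrArg (DF E) (map_mul (ev 𝒜 W x hx) f g)).trans ?_
    rw [DF_mul]
    refine Eq.trans ?_ (map_add (ev 𝒜 W x hx) _ _).symm
    refine Eq.trans ?_ (congrArg₂ (· + ·) (map_mul (ev 𝒜 W x hx) _ _).symm
      (map_mul (ev 𝒜 W x hx) _ _).symm)
    exact congrArg₂ (· + ·) (congrArg₂ (· * ·) rfl (ev_DS 𝒜 E hE W x hx g).symm)
      (congrArg₂ (· * ·) rfl (ev_DS 𝒜 E hE W x hx f).symm)
  map_const W _ c := by
    apply sec_ext 𝒜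
    intro x hx
    refine (ev_DS 𝒜 E hE W x hx _).trans ?_
    refine (congrArg (DF E) (ev_base 𝒜 W x hx c)).trans ?_
    rw [DF_emb, Derivation.map_algebraMap, map_zero]
    exact (map_zero (ev 𝒜 W x hx)).symm
  map_res W W' h h' f := by
    apply sec_ext 𝒜
    intro x hx
    refine (ev_rs 𝒜 h' x hx _).trans ?_
    refine (ev_DS 𝒜 E hE W x (h' hx) f).trans ?_
    exact (ev_DS 𝒜 E hE W' x hx (rs h' f)).symm

theorem frac_regOn (U : (Proj 𝒜).Opens) (n : ℕ) (a b : A) (ha : a ∈ 𝒜 n) (hb : b ∈ 𝒜 n)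
    (hU : U ≤ Proj.basicOpen 𝒜 b) : emb A a / emb A b ∈ RegOn 𝒜 U :=
  fun x hx => ⟨n, a, b, ha, hb, hU hx, rfl⟩

/-- The function `a / b` on `U`. -/
def frac (U : (Proj 𝒜).Opens) (n : ℕ) (a b : A) (ha : a ∈ 𝒜 n) (hb : b ∈ 𝒜 n)
    (hU : U ≤ Proj.basicOpen 𝒜 b) : Reg (Proj 𝒜) U :=
  mkSec 𝒜 U (emb A a / emb A b) (frac_regOn 𝒜 U n a b ha hb hU)

theorem ev_frc (U : (Proj 𝒜).Opens) (n : ℕ) (a b : A) (ha : a ∈ 𝒜 n) (hb : b ∈ 𝒜 n)
    (hU : U ≤ Proj.basicOpen 𝒜 b) (x : Proj 𝒜) (hx : x ∈ U) :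
    ev 𝒜 U x hx (frac 𝒜 U n a b ha hb hU) = emb A a / emb A b := ev_mkSec 𝒜 U _ _ x hx

section O1

variable {ι : Type} (v : ι → A) (hv : ∀ i, v i ∈ 𝒜 1)
  (hcov : ∀ x : Proj 𝒜, ∃ i, x ∈ Proj.basicOpen 𝒜 (v i))

/-- The line sheaf `O(1)`: on `D₊(v i)` it has the frame `v i`. -/
def O1 : LineSheaf (Proj 𝒜) where
  ι := ι
  U i := Proj.basicOpen 𝒜 (v i)
  covers := hcov
  g i j := frac 𝒜 _ 1 (v j) (v i) (hv j) (hv i) inf_le_left
  self i := by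
    apply sec_ext 𝒜
    intro x hx
    refine (ev_frc 𝒜 _ 1 (v i) (v i) (hv i) (hv i) inf_le_left x hx).trans ?_
    have h0 : emb A (v i) ≠ 0 := emb_ne (ne_zero_of_notMem 𝒜 hx.1)
    rw [div_self h0]
    exact (map_one (ev 𝒜 _ x hx)).symm
  cocycle i j l W hi hj hl := by
    apply sec_ext 𝒜
    intro x hx
    refine (map_mul (ev 𝒜 W x hx) _ _).trans ?_
    have h1 : ev 𝒜 W x hx (rs (le_inf hi hj) (frac 𝒜 _ 1 (v j) (v i) (hv j) (hv i) inf_le_left)) =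
        emb A (v j) / emb A (v i) := ev_frc 𝒜 _ 1 (v j) (v i) (hv j) (hv i) inf_le_left x _
    have h2 : ev 𝒜 W x hx (rs (le_inf hj hl) (frac 𝒜 _ 1 (v l) (v j) (hv l) (hv j) inf_le_left)) =
        emb A (v l) / emb A (v j) := ev_frc 𝒜 _ 1 (v l) (v j) (hv l) (hv j) inf_le_left x _
    have h3 : ev 𝒜 W x hx (rs (le_inf hi hl) (frac 𝒜 _ 1 (v l) (v i) (hv l) (hv i) inf_le_left)) =
        emb A (v l) / emb A (v i) := ev_frc 𝒜 _ 1 (v l) (v i) (hv l) (hv i) inf_le_left x _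
    refine (congrArg₂ (· * ·) h1 h2).trans (Eq.trans ?_ h3.symm)
    have hi0 : emb A (v i) ≠ 0 := emb_ne (ne_zero_of_notMem 𝒜 (hi hx))
    have hj0 : emb A (v j) ≠ 0 := emb_ne (ne_zero_of_notMem 𝒜 (hj hx))
    field_simp

/-- The section of `O(1)` given by `a`. -/
def O1sec (a : A) (ha : a ∈ 𝒜 1) : (O1 𝒜 v hv hcov).PowSection 1 where
  s i := frac 𝒜 _ 1 a (v i) ha (hv i) le_rfl
  compat i j W hi hj := by
    apply sec_ext 𝒜
    intro x hx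
    have h1 : ev 𝒜 W x hx (rs hi (frac 𝒜 _ 1 a (v i) ha (hv i) le_rfl)) =
        emb A a / emb A (v i) := ev_frc 𝒜 _ 1 a (v i) ha (hv i) le_rfl x _
    have h2 : ev 𝒜 W x hx (rs hj (frac 𝒜 _ 1 a (v j) ha (hv j) le_rfl)) =
        emb A a / emb A (v j) := ev_frc 𝒜 _ 1 a (v j) ha (hv j) le_rfl x _
    have h3 : ev 𝒜 W x hx (rs (le_inf hi hj) ((O1 𝒜 v hv hcov).g i j)) =
        emb A (v j) / emb A (v i) := ev_frc 𝒜 _ 1 (v j) (v i) (hv j) (hv i) inf_le_left x _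
    refine h1.trans ?_
    rw [pow_one]
    refine Eq.trans ?_ (map_mul (ev 𝒜 W x hx) _ _).symm
    refine Eq.trans ?_ (congrArg₂ (· * ·) h3 h2).symm
    have hi0 : emb A (v i) ≠ 0 := emb_ne (ne_zero_of_notMem 𝒜 (hi hx))
    have hj0 : emb A (v j) ≠ 0 := emb_ne (ne_zero_of_notMem 𝒜 (hj hx))
    field_simp

theorem frac_nz (U : (Proj 𝒜).Opens) (n : ℕ) (a b : A) (ha : a ∈ 𝒜 n) (hb : b ∈ 𝒜 n)
    (hU : U ≤ Proj.basicOpen 𝒜 b) (x : Proj 𝒜) (hx : x ∈ U) :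
    x ∈ nz (frac 𝒜 U n a b ha hb hU) ↔ a ∉ x.asHomogeneousIdeal := by
  refine (mem_basicOpen_iff 𝒜 U _ x hx).trans ?_
  have h0 : ev 𝒜 U x hx (frac 𝒜 U n a b ha hb hU) = emb A a / emb A b :=
    ev_frc 𝒜 U n a b ha hb hU x hx
  constructor
  · rintro ⟨m, c, d, hc, hd, hcx, hdx, he⟩
    intro hax
    have h1 : emb A a / emb A b = emb A c / emb A d := h0.symm.trans he
    rw [div_eq_div_iff (emb_ne (ne_zero_of_notMem 𝒜 (hU hx))) (emb_ne (ne_zero_of_notMem 𝒜 hdx)),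
      ← map_mul, ← map_mul, emb_inj] at h1
    have h2 : c * b ∈ x.asHomogeneousIdeal.toIdeal := by
      rw [← h1]
      exact Ideal.mul_mem_right _ _ hax
    rcases x.isPrime.mem_or_mem h2 with h3 | h3
    · exact hcx h3
    · exact hU hx h3
  · intro hax
    exact ⟨n, a, b, ha, hb, hax, hU hx, h0⟩

theorem O1sec_nonvanishing (a : A) (ha : a ∈ 𝒜 1) :
    (O1sec 𝒜 v hv hcov a ha).nonvanishing = Proj.basicOpen 𝒜 a := by
  ext x
  unfold LineSheaf.PowSection.nonvanishing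
  rw [TopologicalSpace.Opens.coe_iSup, Set.mem_iUnion]
  constructor
  · rintro ⟨i, hi⟩
    have hx : x ∈ Proj.basicOpen 𝒜 (v i) := (Proj 𝒜).basicOpen_le _ hi
    exact (frac_nz 𝒜 _ 1 a (v i) ha (hv i) le_rfl x hx).1 hi
  · intro h
    obtain ⟨i, hi⟩ := hcov x
    exact ⟨i, (frac_nz 𝒜 _ 1 a (v i) ha (hv i) le_rfl x hi).2 h⟩

theorem O1_ample [CompactSpace (Proj 𝒜)] : (O1 𝒜 v hv hcov).IsAmple := by
  refine ⟨inferInstance, fun x => ?_⟩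
  obtain ⟨i, hi⟩ := hcov x
  refine ⟨1, O1sec 𝒜 v hv hcov (v i) (hv i), one_pos, ?_, ?_⟩
  · rw [O1sec_nonvanishing]; exact hi
  · rw [O1sec_nonvanishing]
    exact Proj.isAffineOpen_basicOpen 𝒜 (v i) (hv i) one_pos

/-- A derivation of degree `-1` gives a morphism from `O(1)` to the tangent sheaf. -/
def toT (D : Derivation k A A) (hD : ∀ (a : A), a ∈ 𝒜 1 → ∀ n, ∀ b ∈ 𝒜 n, (a • D) b ∈ 𝒜 n) :
    MapToTangent (str 𝒜) (O1 𝒜 v hv hcov) where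
  v i := vf 𝒜 (v i • D) (hD _ (hv i)) _
  compat i j W hi hj f := by
    apply sec_ext 𝒜
    intro x hx
    have h1 : ev 𝒜 W x hx (rs (le_inf hi hj) ((O1 𝒜 v hv hcov).g i j)) =
        emb A (v j) / emb A (v i) := ev_frc 𝒜 _ 1 (v j) (v i) (hv j) (hv i) inf_le_left x _
    refine (ev_DS 𝒜 _ (hD _ (hv j)) W x hx f).trans ?_
    refine Eq.trans ?_ (map_mul (ev 𝒜 W x hx) _ _).symm
    refine Eq.trans ?_ (congrArg₂ (· * ·) h1 (ev_DS 𝒜 _ (hD _ (hv i)) W x hx f)).symm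
    have hi0 : emb A (v i) ≠ 0 := emb_ne (ne_zero_of_notMem 𝒜 (hi hx))
    rw [div_mul_eq_mul_div, eq_div_iff hi0, mul_comm]
    exact DF_smul_hom _ _ (v i) (v j) (by rw [smul_smul, smul_smul, mul_comm]) _

theorem toT_nowhereZero (D : Derivation k A A)
    (hD : ∀ (a : A), a ∈ 𝒜 1 → ∀ n, ∀ b ∈ 𝒜 n, (a • D) b ∈ 𝒜 n)
    (w : A) (hw : w ∈ 𝒜 1) (hDw : D w = 1) (hDv : ∀ i, D (v i) = 0) :
    (toT 𝒜 v hv hcov D hD).NowhereZero := by
  intro x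
  obtain ⟨i, hi⟩ := hcov x
  refine ⟨i, _, le_rfl, frac 𝒜 _ 1 w (v i) hw (hv i) le_rfl, ?_⟩
  have hi0 : v i ≠ 0 := ne_zero_of_notMem 𝒜 hi
  have h1 : ev 𝒜 _ x hi (((toT 𝒜 v hv hcov D hD).v i).D _ le_rfl
      (frac 𝒜 _ 1 w (v i) hw (hv i) le_rfl)) = 1 := by
    refine (ev_DS 𝒜 _ (hD _ (hv i)) _ x hi _).trans ?_
    refine (congrArg (DF (v i • D)) (ev_frc 𝒜 _ 1 w (v i) hw (hv i) le_rfl x hi)).trans ?_
    rw [DF_div _ _ _ hi0]
    simp only [Derivation.smul_apply, hDw, hDv, smul_eq_mul, mul_one, mul_zero, sub_zero]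
    exact div_self (emb_ne (mul_ne_zero hi0 hi0))
  refine (mem_basicOpen_iff 𝒜 _ _ x hi).2 ?_
  refine ⟨0, 1, 1, SetLike.one_mem_graded 𝒜, SetLike.one_mem_graded 𝒜, ?_, ?_, ?_⟩
  · exact fun h => x.isPrime.ne_top ((Ideal.eq_top_iff_one _).2 h)
  · exact fun h => x.isPrime.ne_top ((Ideal.eq_top_iff_one _).2 h)
  · refine h1.trans ?_
    simp

end O1

end

end Pool.Agent.R866.PJ
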